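import Pool.Agent.Lib.MP_0087d5_lcPR.XC
import Pool.Agent.Lib.MP_0087d5_lcPR.XF
import Pool.Agent.Lib.MP_0087d5_lcPR.XE
import Pool.Agent.Lib.MP_0087d5_lcPR.GE
import Pool.Agent.Lib.MP_0087d5_lcPR.XI
import Pool.Agent.Lib.MP_0087d5_lcPR.Br2

/-!
# All graphs with `O(log² n)` random bits: definitions

`X` is a graph on `Fin N`, in the applications `X = pair G A` (file MT/Y2), `N = n + n`: the graph `G` on the first half, the seed `A` on the second half.
`L = Nat.log 2 N`. The seed gives for each row `i < 2 L` the two numbers `num 2 a X i = ∑ 2 ^ j` over `2 L ≤ j < a L` with `A.Adj i j`, and `num a b X i = ∑ 2 ^ j` over `a L ≤ j < b L` with `A.Adj i j`.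
-/

set_option autoImplicit false
set_option linter.all false

namespace QRB

open Finset Pool.Agent Pool.Agent.PMNC MTC LIN PRS

section
variable {N : ℕ}

/-- `h` is the first vertex of the second half -/
def isMid (h : Fin N) : Prop := ¬ lo h ∧ ∀ u : Fin N, u < h → lo u

/-- the pair `i j` is an edge of the seed -/
def Sd (X : SimpleGraph (Fin N)) (i j : Fin N) : Prop :=
  ∃ h i' j' : Fin N, isMid h ∧ (h : ℕ) + (i : ℕ) = (i' : ℕ) ∧ (h : ℕ) + (j : ℕ) = (j' : ℕ) ∧ X.Adj i' j'

/-- the number of the row `i` with the binary digits in the columns `a * L ≤ j < b * L` -/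
noncomputable def num (a b : ℕ) (X : SimpleGraph (Fin N)) (i : Fin N) : ℤ :=
  ∑ j : Fin N, cnd ((¬ (j : ℕ) < a * Nat.log 2 N) ∧ (j : ℕ) < b * Nat.log 2 N ∧ Sd X i j) (2 ^ (j : ℕ)) 0

/-- the matrix of the test of the graph `T` with the seed of `X`: the product over the rows `i` of `x_i ^ (r_i ^ eid u v % m)`, `r_i = num 2 a X i`, `x_i = num a b X i` -/
noncomputable def zR (a b m : ℕ) (X T : SimpleGraph (Fin N)) (u v : Fin N) : ℤ :=
  zB T u v * ∏ i : Fin N, cnd ((i : ℕ) < 2 * Nat.log 2 N) (num a b X i ^ rz m (num 2 a X i ^ eid u v)) 1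

/-- the weights of the isolation theorem (the same as `QIS.WS`) -/
def WS {V : Type} (e : V → V → ℕ) (K m : ℕ) (r : ℕ → ℕ) : ℕ → V → V → ℕ
  | 0, _, _ => 0
  | i + 1, u, v => K * WS e K m r i u v + r i ^ e u v % m

/-- the isolation theorem (for the labels `eid`), with the sets `B i r` of the bad numbers `r i` -/
def IsoMost (C : ℕ) : Prop :=
  ∀ N : ℕ, 2 ≤ N → ∀ m : ℕ, m.Prime → ∀ K : ℕ, N * m < K → ∀ T : SimpleGraph (Fin N), HasPM T →
    ∃ B : ℕ → (ℕ → ℕ) → Finset ℕ, (∀ i r, (B i r).card ≤ N ^ C) ∧ (∀ i r r', (∀ j < i, r j = r' j) → B i r = B i r') ∧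
      ∀ r : ℕ → ℕ, (∀ i < Nat.clog 2 N, r i < m ∧ r i ∉ B i r) → Iso T (WS eid K m r (Nat.clog 2 N))

/-- the matrix with the variables `x_i`, exponents `w i u v` -/
noncomputable def pM {N : ℕ} (p R : ℕ) (T : SimpleGraph (Fin N)) (w : Fin R → Fin N → Fin N → ℕ) :
    Matrix (Fin N) (Fin N) (MvPolynomial (Fin R) (ZMod p)) :=
  Matrix.of fun u v => MvPolynomial.C ((zB T u v : ℤ) : ZMod p) * ∏ i, MvPolynomial.X i ^ w i u v

end

section
variable {S : ℕ → Type} [Env S] {N : ℕ}

/-- the test of the graph `T` with the seed of `X`; the parameters are `m, p` -/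
def accR (a b : ℕ) (X T : SimpleGraph (Fin N)) (e : S N × S N) : Prop :=
  prS e.2 ∧ (¬ nv e.1 = 0) ∧ nd e.2 (zdet (T := fun n => Fin n) (zR a b (nv e.1) X T))

end

section
variable (S : ℕ → Type) [Env S] (a b : ℕ) {N : ℕ}

def AccR (X T : SimpleGraph (Fin N)) : Prop := ∃ e : S N × S N, accR a b X T e

/-- the vertex `v` is less than all accepted deficiencies -/
def DfR (X : SimpleGraph (Fin N)) (v : Fin N) : Prop := ∀ d : Fin N, AccR S a b X (T1 N X d) → v < d

/-- the least accepted deficiency -/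
def LsR (X : SimpleGraph (Fin N)) (d : Fin N) : Prop :=
  AccR S a b X (T1 N X d) ∧ ∀ d' : Fin N, d' < d → ¬ AccR S a b X (T1 N X d')

/-- the set `D` of the decomposition of Gallai and Edmonds, in the first half -/
def GdR (X : SimpleGraph (Fin N)) (v : Fin N) : Prop := lo v ∧ ∃ d : Fin N, LsR S a b X d ∧ AccR S a b X (T2 N X (d, v))

/-- the set `A` of the decomposition of Gallai and Edmonds, in the first half -/
def UrR (X : SimpleGraph (Fin N)) (w : Fin N) : Prop := lo w ∧ ¬ GdR S a b X w ∧ ∃ u, GdR S a b X u ∧ X.Adj w u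

end

section
variable {n : ℕ}

/-- the seeds: all edges are inside the first `K` vertices -/
def Sup (K : ℕ) (A : SimpleGraph (Fin n)) : Prop := ∀ u v, A.Adj u v → (u : ℕ) < K

open Classical in
/-- the number with the binary digits `A.Adj i j`, `c ≤ j < c'` -/
noncomputable def dig (c c' : ℕ) (A : SimpleGraph (Fin n)) (i : Fin n) : ℕ :=
  ∑ j : Fin n, if c ≤ (j : ℕ) ∧ (j : ℕ) < c' ∧ A.Adj i j then 2 ^ (j : ℕ) else 0

end

end QRB
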