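import Pool.Agent.Lib.MP_0087d5_lcQB.Defs

/-!
# Leaf Q1 (easy+): small numbers and the seed are definable

`def_ltMul`. Proof: induction on `c`. `c = 0`: `DefP.const False`. `c = 1`: `DefP.ltLog` (file lc/ZNum). For `c + 1` with `1 ≤ c`: for `L = Nat.log 2 n`, `f < (c + 1) * L` if and only if `f < c * L` or there are `j w y : Fin n` with `j < c * L`,
`w < L`, `j + w = y`, `f = y + 1` (`DefP.nAdd`, `DefP.nSucc` with `nv_fin`, see `XE_add` in PR/XE and `DefP.ltLog`).
`def_Sd`: `def_lo` (file MT/Y3), `DefP.allFin`, `DefP.exFin`, `DefP.lt`, `DefP.nAdd` (with `nv_fin`), `DefP.adj`; see PR/XE, PR/XG for the style.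
-/

set_option autoImplicit false
set_option linter.all false

namespace QRB

open Finset Pool.Agent Pool.Agent.PMNC MTC LIN PRS

private theorem Q1_add {E : ℕ → Type} [Env E] {f g h : ∀ n : ℕ, E n → Fin n} (hf : Tm (F := fun n => Fin n) f)
    (hg : Tm (F := fun n => Fin n) g) (hh : Tm (F := fun n => Fin n) h) :
    DefP (fun n G X x => ((f n x : Fin n) : ℕ) + ((g n x : Fin n) : ℕ) = ((h n x : Fin n) : ℕ)) := by
  refine DefP.congr (P := fun n G X x => nv (S := fun n => Fin n) (f n x) + nv (S := fun n => Fin n) (g n x) =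
    nv (S := fun n => Fin n) (h n x)) ?_ (fun n G X x => by simp only [nv_fin])
  exact DefP.nAdd (F := fun n => Fin n) (H := fun n => Fin n) (K := fun n => Fin n) hf hg hh

private theorem Q1_succ {E : ℕ → Type} [Env E] {f g : ∀ n : ℕ, E n → Fin n} (hf : Tm (F := fun n => Fin n) f)
    (hg : Tm (F := fun n => Fin n) g) :
    DefP (fun n G X x => ((g n x : Fin n) : ℕ) = ((f n x : Fin n) : ℕ) + 1) := by
  refine DefP.congr (P := fun n G X x => nv (S := fun n => Fin n) (g n x) =
    nv (S := fun n => Fin n) (f n x) + 1) ?_ (fun n G X x => by simp only [nv_fin])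
  exact DefP.nSucc (F := fun n => Fin n) (H := fun n => Fin n) hf hg

private theorem Q1_num {n c L : ℕ} (f : Fin n) : (f : ℕ) < (c + 1 + 1) * L ↔
    (f : ℕ) < (c + 1) * L ∨ ∃ j w y : Fin n, (j : ℕ) < (c + 1) * L ∧ (w : ℕ) < L ∧ (j : ℕ) + (w : ℕ) = (y : ℕ) ∧
      (f : ℕ) = (y : ℕ) + 1 := by
  have e : (c + 1 + 1) * L = (c + 1) * L + L := by ring
  rw [e]
  generalize hM : (c + 1) * L = M
  constructor
  · intro h
    by_cases h1 : (f : ℕ) < M
    · exact Or.inl h1
    · have hL : 1 ≤ L := by omega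
      have hM1 : 1 ≤ M := by rw [← hM]; exact Nat.mul_pos (Nat.succ_pos c) hL
      have hf := f.2
      exact Or.inr ⟨⟨M - 1, by omega⟩, ⟨(f : ℕ) - M, by omega⟩, ⟨(f : ℕ) - 1, by omega⟩, by simp only; omega, by simp only; omega,
        by simp only; omega, by simp only; omega⟩
  · rintro (h | ⟨j, w, y, h1, h2, h3, h4⟩)
    · omega
    · omega

private theorem Q1_all : ∀ c : ℕ, DefP (E := fun n => Fin n) (fun n G X (f : Fin n) => (f : ℕ) < c * Nat.log 2 n)
  | 0 => DefP.congr (P := fun n G X (f : Fin n) => False) (DefP.const False) (fun n G X f => by simp)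
  | 1 => DefP.congr (P := fun n G X (f : Fin n) => f.val < Nat.log 2 n) (DefP.ltLog Tm.id) (fun n G X f => by rw [one_mul])
  | c + 2 => by
      have ih := Q1_all (c + 1)
      have i1 := DefP.ltLog (E := fun n => Fin n) (f := fun n x => x) Tm.id
      have a1 : Tm (E := fun n => ((Fin n × Fin n) × Fin n) × Fin n) (F := fun n => (Fin n × Fin n) × Fin n) (fun n y => y.1) :=
        Tm.fst (F := fun n => (Fin n × Fin n) × Fin n) (H := fun n => Fin n) Tm.id
      have a2 : Tm (E := fun n => ((Fin n × Fin n) × Fin n) × Fin n) (F := fun n => Fin n × Fin n) (fun n y => y.1.1) :=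
        Tm.fst (F := fun n => Fin n × Fin n) (H := fun n => Fin n) a1
      have tf : Tm (E := fun n => ((Fin n × Fin n) × Fin n) × Fin n) (F := fun n => Fin n) (fun n y => y.1.1.1) :=
        Tm.fst (F := fun n => Fin n) (H := fun n => Fin n) a2
      have tj : Tm (E := fun n => ((Fin n × Fin n) × Fin n) × Fin n) (F := fun n => Fin n) (fun n y => y.1.1.2) :=
        Tm.snd (F := fun n => Fin n) (H := fun n => Fin n) a2
      have tw : Tm (E := fun n => ((Fin n × Fin n) × Fin n) × Fin n) (F := fun n => Fin n) (fun n y => y.1.2) :=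
        Tm.snd (F := fun n => Fin n × Fin n) (H := fun n => Fin n) a1
      have ty : Tm (E := fun n => ((Fin n × Fin n) × Fin n) × Fin n) (F := fun n => Fin n) (fun n y => y.2) :=
        Tm.snd (F := fun n => (Fin n × Fin n) × Fin n) (H := fun n => Fin n) Tm.id
      refine DefP.congr (P := fun n G X (f : Fin n) => (f : ℕ) < (c + 1) * Nat.log 2 n ∨ ∃ j w y : Fin n,
        (j : ℕ) < (c + 1) * Nat.log 2 n ∧ (w : ℕ) < Nat.log 2 n ∧ (j : ℕ) + (w : ℕ) = (y : ℕ) ∧ (f : ℕ) = (y : ℕ) + 1) ?_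
        (fun n G X f => (Q1_num f).symm)
      refine DefP.or ih (DefP.exFin (DefP.exFin (DefP.exFin ?_)))
      exact DefP.and (DefP.comp (F := fun n => Fin n) ih tj) (DefP.and (DefP.comp (F := fun n => Fin n) i1 tw)
        (DefP.and (Q1_add tj tw ty) (Q1_succ ty tf)))

theorem def_ltMul (c : ℕ) {E : ℕ → Type} [Env E] {f : ∀ n : ℕ, E n → Fin n} (hf : Tm (F := fun n => Fin n) f) :
    DefP (fun n G X x => ((f n x : Fin n) : ℕ) < c * Nat.log 2 n) := by
  exact DefP.comp (F := fun n => Fin n) (Q1_all c) hf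

private theorem Q1_mid : DefP (E := fun n => Fin n) (fun n G X (h : Fin n) => isMid h) := by
  refine DefP.congr (P := fun n G X (h : Fin n) => ¬ lo h ∧ ∀ u : Fin n, u < h → lo u) ?_ (fun n G X h => Iff.rfl)
  have a1 : Tm (E := fun n => Fin n × Fin n) (F := fun n => Fin n) (fun n y => y.1) :=
    Tm.fst (F := fun n => Fin n) (H := fun n => Fin n) Tm.id
  have a2 : Tm (E := fun n => Fin n × Fin n) (F := fun n => Fin n) (fun n y => y.2) :=
    Tm.snd (F := fun n => Fin n) (H := fun n => Fin n) Tm.id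
  exact DefP.and (DefP.not (def_lo Tm.id)) (DefP.allFin (DefP.imp (DefP.lt a2 a1) (def_lo a2)))

theorem def_Sd {E : ℕ → Type} [Env E] {f g : ∀ n : ℕ, E n → Fin n} (hf : Tm (F := fun n => Fin n) f) (hg : Tm (F := fun n => Fin n) g) :
    DefP (fun n G X x => Sd G (f n x) (g n x)) := by
  have a0 : Tm (E := fun n => ((E n × Fin n) × Fin n) × Fin n) (F := fun n => (E n × Fin n) × Fin n) (fun n y => y.1) :=
    Tm.fst (F := fun n => (E n × Fin n) × Fin n) (H := fun n => Fin n) Tm.id
  have a1 : Tm (E := fun n => ((E n × Fin n) × Fin n) × Fin n) (F := fun n => E n × Fin n) (fun n y => y.1.1) :=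
    Tm.fst (F := fun n => E n × Fin n) (H := fun n => Fin n) a0
  have a2 : Tm (E := fun n => ((E n × Fin n) × Fin n) × Fin n) (F := E) (fun n y => y.1.1.1) :=
    Tm.fst (F := E) (H := fun n => Fin n) a1
  have th : Tm (E := fun n => ((E n × Fin n) × Fin n) × Fin n) (F := fun n => Fin n) (fun n y => y.1.1.2) :=
    Tm.snd (F := E) (H := fun n => Fin n) a1
  have ti : Tm (E := fun n => ((E n × Fin n) × Fin n) × Fin n) (F := fun n => Fin n) (fun n y => y.1.2) :=
    Tm.snd (F := fun n => E n × Fin n) (H := fun n => Fin n) a0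
  have tj : Tm (E := fun n => ((E n × Fin n) × Fin n) × Fin n) (F := fun n => Fin n) (fun n y => y.2) :=
    Tm.snd (F := fun n => (E n × Fin n) × Fin n) (H := fun n => Fin n) Tm.id
  refine DefP.congr (P := fun n G X x => ∃ h i' j' : Fin n, isMid h ∧ (h : ℕ) + ((f n x : Fin n) : ℕ) = (i' : ℕ) ∧
    (h : ℕ) + ((g n x : Fin n) : ℕ) = (j' : ℕ) ∧ G.Adj i' j') ?_ (fun n G X x => Iff.rfl)
  refine DefP.exFin (DefP.exFin (DefP.exFin ?_))
  exact DefP.and (DefP.comp (F := fun n => Fin n) Q1_mid th) (DefP.and (Q1_add th (Tm.comp (F := E) hf a2) ti)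
    (DefP.and (Q1_add th (Tm.comp (F := E) hg a2) tj) (DefP.adj ti tj)))

end QRB
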