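import Pool.Agent.Lib.MP_0087d5_lcQB.Defs

/-!
# Leaf Q10 (easy): the numbers of a pair of graphs; the tested graphs do not depend on the seed

`sd_pair`. Proof: the middle `h` is the vertex `n = Fin.natAdd n 0`; `(h : ℕ) + i = i'` with `i = Fin.castAdd n a` gives `i' = Fin.natAdd n a`; `pair` on the second half is `A` (`Y2_rr`, `Y2_lo`, `Y2_hi` in MT/Y2 are private: copy them). `sd_pair_hi`: for `j` in the second half
`h + j` is not less than `n + n`. `num_pair`: split the sum over `Fin (n + n)` (`Fin.sum_univ_add`); the second half gives `0`.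
`t1_pair`, `t2_pair`: `ext`, `Fin.addCases`; `pair G A` and `pair G A'` agree on the first half, and mixed pairs and pairs in the second half do not use the graph.
-/

set_option autoImplicit false
set_option linter.all false

namespace QRB

open Finset Pool.Agent Pool.Agent.PMNC MTC LIN PRS

variable {n : ℕ}

private lemma Q10_lo {n : ℕ} (a : Fin n) : lo (Fin.castAdd n a : Fin (n + n)) := by
  have := a.2
  simp only [lo, Fin.val_castAdd]
  omega

private lemma Q10_hi {n : ℕ} (a : Fin n) : ¬ lo (Fin.natAdd n a : Fin (n + n)) := by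
  simp only [lo, Fin.val_natAdd]
  omega

private lemma Q10_ll {n : ℕ} (G A : SimpleGraph (Fin n)) (a b : Fin n) :
    (pair G A).Adj (Fin.castAdd n a) (Fin.castAdd n b) ↔ G.Adj a b := by
  change (G ⊕g A).Adj (finSumFinEquiv.symm (Fin.castAdd n a)) (finSumFinEquiv.symm (Fin.castAdd n b)) ↔ _
  rw [finSumFinEquiv_symm_apply_castAdd, finSumFinEquiv_symm_apply_castAdd]
  rfl

private lemma Q10_rr {n : ℕ} (G A : SimpleGraph (Fin n)) (a b : Fin n) :
    (pair G A).Adj (Fin.natAdd n a) (Fin.natAdd n b) ↔ A.Adj a b := by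
  change (G ⊕g A).Adj (finSumFinEquiv.symm (Fin.natAdd n a)) (finSumFinEquiv.symm (Fin.natAdd n b)) ↔ _
  rw [finSumFinEquiv_symm_apply_natAdd, finSumFinEquiv_symm_apply_natAdd]
  rfl

private lemma Q10_low {n : ℕ} (G A A' : SimpleGraph (Fin n)) (u v : Fin (n + n)) :
    (lo u ∧ lo v ∧ (pair G A).Adj u v) ↔ (lo u ∧ lo v ∧ (pair G A').Adj u v) := by
  refine Fin.addCases (fun a => ?_) (fun a => ?_) u
  · refine Fin.addCases (fun b => ?_) (fun b => ?_) v
    · rw [Q10_ll, Q10_ll]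
    · exact ⟨fun h => absurd h.2.1 (Q10_hi b), fun h => absurd h.2.1 (Q10_hi b)⟩
  · exact ⟨fun h => absurd h.1 (Q10_hi a), fun h => absurd h.1 (Q10_hi a)⟩

private lemma Q10_mid {n : ℕ} (h : Fin (n + n)) (hm : isMid h) : (h : ℕ) = n := by
  obtain ⟨h1, h2⟩ := hm
  have h3 := h.2
  unfold lo at h1
  have h4 : ¬ n < (h : ℕ) := by
    intro h5
    have h6 : n < n + n := h5.trans h3
    have h7 := h2 ⟨n, h6⟩ h5
    unfold lo at h7
    simp only at h7
    omega
  omega

theorem sd_pair (G A : SimpleGraph (Fin n)) (i j : Fin n) : Sd (pair G A) (Fin.castAdd n i) (Fin.castAdd n j) ↔ A.Adj i j := by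
  constructor
  · rintro ⟨h, i', j', hm, hi, hj, hadj⟩
    have h0 := Q10_mid h hm
    have h1 : i' = Fin.natAdd n i := by
      apply Fin.ext
      rw [Fin.val_natAdd]
      rw [Fin.val_castAdd] at hi
      omega
    have h2 : j' = Fin.natAdd n j := by
      apply Fin.ext
      rw [Fin.val_natAdd]
      rw [Fin.val_castAdd] at hj
      omega
    rw [h1, h2] at hadj
    exact (Q10_rr G A i j).1 hadj
  · intro hadj
    have hn : 0 < n := lt_of_le_of_lt (Nat.zero_le _) i.2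
    refine ⟨Fin.natAdd n ⟨0, hn⟩, Fin.natAdd n i, Fin.natAdd n j, ⟨Q10_hi _, fun u hu => ?_⟩, ?_, ?_,
      (Q10_rr G A i j).2 hadj⟩
    · have h1 : (u : ℕ) < n := by
        have h2 : (u : ℕ) < ((Fin.natAdd n ⟨0, hn⟩ : Fin (n + n)) : ℕ) := hu
        rw [Fin.val_natAdd] at h2
        exact h2
      unfold lo
      omega
    · rw [Fin.val_natAdd, Fin.val_natAdd, Fin.val_castAdd]
      rfl
    · rw [Fin.val_natAdd, Fin.val_natAdd, Fin.val_castAdd]
      rfl

theorem sd_pair_hi (G A : SimpleGraph (Fin n)) (i : Fin (n + n)) (j : Fin n) : ¬ Sd (pair G A) i (Fin.natAdd n j) := by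
  rintro ⟨h, i', j', hm, hi, hj, hadj⟩
  have h0 := Q10_mid h hm
  have h1 := j'.2
  rw [Fin.val_natAdd] at hj
  omega

theorem num_pair (a b : ℕ) (G A : SimpleGraph (Fin n)) (i : Fin n) :
    num a b (pair G A) (Fin.castAdd n i) = ((dig (a * Nat.log 2 (n + n)) (b * Nat.log 2 (n + n)) A i : ℕ) : ℤ) := by
  unfold num dig
  rw [Fin.sum_univ_add]
  have h2 : ∑ j : Fin n, cnd ((¬ ((Fin.natAdd n j : Fin (n + n)) : ℕ) < a * Nat.log 2 (n + n)) ∧
      ((Fin.natAdd n j : Fin (n + n)) : ℕ) < b * Nat.log 2 (n + n) ∧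
      Sd (pair G A) (Fin.castAdd n i) (Fin.natAdd n j)) (2 ^ ((Fin.natAdd n j : Fin (n + n)) : ℕ)) 0 = 0 :=
    Finset.sum_eq_zero fun j _ => cnd_neg (fun h => sd_pair_hi G A _ j h.2.2) _ _
  rw [h2, add_zero, Nat.cast_sum]
  refine Finset.sum_congr rfl fun j _ => ?_
  rw [Fin.val_castAdd, sd_pair]
  by_cases h : a * Nat.log 2 (n + n) ≤ (j : ℕ) ∧ (j : ℕ) < b * Nat.log 2 (n + n) ∧ A.Adj i j
  · rw [if_pos h, cnd_pos ⟨not_lt.2 h.1, h.2.1, h.2.2⟩, Nat.cast_pow, Nat.cast_ofNat]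
  · rw [if_neg h, cnd_neg (fun h' => h ⟨not_lt.1 h'.1, h'.2.1, h'.2.2⟩), Nat.cast_zero]

theorem t1_pair (G A A' : SimpleGraph (Fin n)) (d : Fin (n + n)) : T1 (n + n) (pair G A) d = T1 (n + n) (pair G A') d := by
  ext u v
  exact and_congr Iff.rfl (or_congr (Q10_low G A A' u v) Iff.rfl)

theorem t2_pair (G A A' : SimpleGraph (Fin n)) (d v : Fin (n + n)) : T2 (n + n) (pair G A) (d, v) = T2 (n + n) (pair G A') (d, v) := by
  ext u v
  refine and_congr ?_ Iff.rfl
  rw [t1_pair G A A' d]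

end QRB
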