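import Mathlib

/-!
# Leaf Q7 (easy+): two counts

`sz_count`. Proof: `MvPolynomial.schwartz_zippel_totalDegree` (Mathlib) with the finite set `s` of the elements `2 ^ c * x`, `x < 2 ^ g`, of `ZMod p`, which has `2 ^ g` elements because `2 ^ g ≤ p` and `p` is odd; the tuples `ξ` correspond to the
elements of `Fintype.piFinset (fun _ => s)`.
`rc_count`. Proof: for each `i : Fin R` the number of the `ρ` with `φ (ρ i) ∈ B i (ext …)` times `q` is at most `M * q ^ R`: the set `B i (ext φ ρ)` does not depend on `ρ i` (`hB2`: `ext φ (Function.update ρ i x) j = ext φ ρ j` for `j < i`), so for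
given values of `ρ` outside of `i` there are at most `M` values of `ρ i` (`φ` is injective). (E.g. `Finset.card_le_mul_card_image_of_maps_to`, or the injection of `{ρ bad at i} × Fin q` into the pairs (element of `Fin M`, `Fin R → Fin q`) by
`(ρ, y) ↦ (the index of φ (ρ i) in B i (ext φ ρ), Function.update ρ i y)`.) Sum over `i`.
-/

set_option autoImplicit false
set_option linter.all false

namespace QRB

private theorem Q7_inj {p g c : ℕ} [Fact p.Prime] (hp : p ≠ 2) (hg : 2 ^ g ≤ p) :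
    Function.Injective (fun x : Fin (2 ^ g) => ((2 ^ c * (x : ℕ) : ℕ) : ZMod p)) := by
  intro x y hxy
  have h1 : (2 ^ c * (x : ℕ)) ≡ (2 ^ c * (y : ℕ)) [MOD p] := (ZMod.natCast_eq_natCast_iff _ _ _).1 hxy
  have hcop : Nat.gcd p (2 ^ c) = 1 := by
    have : Nat.Coprime p 2 := (Nat.coprime_primes Fact.out Nat.prime_two).2 hp
    exact Nat.Coprime.pow_right c this
  have h2 : (x : ℕ) ≡ (y : ℕ) [MOD p] := Nat.ModEq.cancel_left_of_coprime hcop h1
  exact Fin.ext (Nat.ModEq.eq_of_lt_of_lt h2 (lt_of_lt_of_le x.2 hg) (lt_of_lt_of_le y.2 hg))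

theorem sz_count {p R g c : ℕ} [Fact p.Prime] (hp : p ≠ 2) (hg : 2 ^ g ≤ p) (F : MvPolynomial (Fin R) (ZMod p)) (hF : F ≠ 0) :
    Nat.card {ξ : Fin R → Fin (2 ^ g) // MvPolynomial.eval (fun i => ((2 ^ c * (ξ i : ℕ) : ℕ) : ZMod p)) F = 0} * 2 ^ g ≤
      F.totalDegree * (2 ^ g) ^ R := by
  classical
  set em : Fin (2 ^ g) → ZMod p := fun x => ((2 ^ c * (x : ℕ) : ℕ) : ZMod p) with hem
  have hinj : Function.Injective em := Q7_inj hp hg
  set S : Finset (ZMod p) := Finset.univ.image em with hS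
  have hcard : S.card = 2 ^ g := by
    rw [hS, Finset.card_image_of_injective _ hinj, Finset.card_univ, Fintype.card_fin]
  have h0 := MvPolynomial.schwartz_zippel_totalDegree hF S
  rw [hcard] at h0
  have h3 : Nat.card {ξ : Fin R → Fin (2 ^ g) // MvPolynomial.eval (fun i => ((2 ^ c * (ξ i : ℕ) : ℕ) : ZMod p)) F = 0} ≤
      (Finset.filter (fun f => MvPolynomial.eval f F = 0) (Fintype.piFinset fun _ : Fin R => S)).card := by
    rw [Nat.card_eq_fintype_card, Fintype.card_subtype]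
    refine Finset.card_le_card_of_injOn (fun ξ i => em (ξ i)) ?_ ?_
    · intro ξ hξ
      have hξ' := (Finset.mem_filter.1 (Finset.mem_coe.1 hξ)).2
      refine Finset.mem_coe.2 (Finset.mem_filter.2 ⟨?_, hξ'⟩)
      rw [Fintype.mem_piFinset]
      intro i
      exact Finset.mem_image_of_mem _ (Finset.mem_univ _)
    · intro ξ _ ξ' _ hh
      funext i
      exact hinj (congrFun hh i)
  set N : ℕ := (Finset.filter (fun f => MvPolynomial.eval f F = 0) (Fintype.piFinset fun _ : Fin R => S)).card with hN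
  have h4 : N * 2 ^ g ≤ F.totalDegree * (2 ^ g) ^ R := by
    have hpos : (0 : NNRat) < ((2 ^ g : ℕ) : NNRat) := by
      exact_mod_cast Nat.pos_of_ne_zero (pow_ne_zero g two_ne_zero)
    have hpos' : (0 : NNRat) < ((2 ^ g : ℕ) : NNRat) ^ R := pow_pos hpos R
    rw [div_le_div_iff₀ hpos' hpos] at h0
    exact_mod_cast h0
  exact (Nat.mul_le_mul_right _ h3).trans h4

/-- the sequence of the numbers `φ (ρ i)` -/
def ext {R q : ℕ} (φ : Fin q → ℕ) (ρ : Fin R → Fin q) (j : ℕ) : ℕ := if h : j < R then φ (ρ ⟨j, h⟩) else 0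

private theorem Q7_ext {R q : ℕ} (φ : Fin q → ℕ) (ρ ρ' : Fin R → Fin q) (i : Fin R) (h : ∀ j, j ≠ i → ρ j = ρ' j) :
    ∀ j < (i : ℕ), ext φ ρ j = ext φ ρ' j := by
  intro j hj
  have hjR : j < R := hj.trans i.2
  have hne : (⟨j, hjR⟩ : Fin R) ≠ i := by
    intro hh
    rw [← hh] at hj
    exact absurd hj (lt_irrefl _)
  simp only [ext, dif_pos hjR, h _ hne]

private theorem Q7_one {R q M : ℕ} (φ : Fin q → ℕ) (hφ : Function.Injective φ) (B : ℕ → (ℕ → ℕ) → Finset ℕ)
    (hB : ∀ i r, (B i r).card ≤ M) (hB2 : ∀ i r r', (∀ j < i, r j = r' j) → B i r = B i r') (i : Fin R) :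
    (Finset.univ.filter fun ρ : Fin R → Fin q => φ (ρ i) ∈ B i (ext φ ρ)).card * q ≤ M * q ^ R := by
  classical
  have h1 : (Finset.univ.filter fun ρ : Fin R → Fin q => φ (ρ i) ∈ B i (ext φ ρ)).card * q =
      ((Finset.univ.filter fun ρ : Fin R → Fin q => φ (ρ i) ∈ B i (ext φ ρ)) ×ˢ (Finset.univ : Finset (Fin q))).card := by
    rw [Finset.card_product, Finset.card_univ, Fintype.card_fin]
  have h2 : q ^ R = (Finset.univ : Finset (Fin R → Fin q)).card := by
    rw [Finset.card_univ, Fintype.card_fun, Fintype.card_fin, Fintype.card_fin]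
  rw [h1, h2]
  refine Finset.card_le_mul_card_image_of_maps_to (f := fun x : (Fin R → Fin q) × Fin q => Function.update x.1 i x.2)
    (fun _ _ => Finset.mem_univ _) M ?_
  intro ρ' _
  refine (Finset.card_le_card_of_injOn (t := B i (ext φ ρ')) (fun x : (Fin R → Fin q) × Fin q => φ (x.1 i)) ?_ ?_).trans (hB _ _)
  · rintro ⟨ρ, y⟩ hx
    have hx1 := Finset.mem_filter.1 (Finset.mem_coe.1 hx)
    have hx2 := (Finset.mem_filter.1 (Finset.mem_product.1 hx1.1).1).2
    have hx3 : Function.update ρ i y = ρ' := hx1.2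
    have hx4 : B i (ext φ ρ) = B i (ext φ ρ') := by
      refine hB2 _ _ _ (Q7_ext φ ρ ρ' i fun j hj => ?_)
      rw [← hx3, Function.update_of_ne hj]
    rw [← hx4]
    exact hx2
  · rintro ⟨ρ, y⟩ hx ⟨ρ1, y1⟩ hx1 hh
    have e1 : Function.update ρ i y = ρ' := (Finset.mem_filter.1 (Finset.mem_coe.1 hx)).2
    have e2 : Function.update ρ1 i y1 = ρ' := (Finset.mem_filter.1 (Finset.mem_coe.1 hx1)).2
    have e3 : ρ i = ρ1 i := hφ hh
    have e4 : y = y1 := by
      have a1 := congrFun e1 i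
      have a2 := congrFun e2 i
      rw [Function.update_self] at a1 a2
      rw [a1, a2]
    have e5 : ρ = ρ1 := by
      funext j
      by_cases hj : j = i
      · rw [hj]
        exact e3
      · have a1 := congrFun e1 j
        have a2 := congrFun e2 j
        rw [Function.update_of_ne hj] at a1 a2
        rw [a1, a2]
    rw [e4, e5]

theorem rc_count {R q M : ℕ} (φ : Fin q → ℕ) (hφ : Function.Injective φ) (B : ℕ → (ℕ → ℕ) → Finset ℕ) (hB : ∀ i r, (B i r).card ≤ M)
    (hB2 : ∀ i r r', (∀ j < i, r j = r' j) → B i r = B i r') :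
    Nat.card {ρ : Fin R → Fin q // ∃ i : Fin R, φ (ρ i) ∈ B i (ext φ ρ)} * q ≤ R * M * q ^ R := by
  classical
  rw [Nat.card_eq_fintype_card, Fintype.card_subtype]
  have h1 : (Finset.univ.filter fun ρ : Fin R → Fin q => ∃ i : Fin R, φ (ρ i) ∈ B i (ext φ ρ)).card ≤
      ∑ i : Fin R, (Finset.univ.filter fun ρ : Fin R → Fin q => φ (ρ i) ∈ B i (ext φ ρ)).card := by
    refine (Finset.card_le_card ?_).trans (Finset.card_biUnion_le (s := Finset.univ)
      (t := fun i : Fin R => Finset.univ.filter fun ρ : Fin R → Fin q => φ (ρ i) ∈ B i (ext φ ρ)))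
    intro ρ hρ
    obtain ⟨i, hi⟩ := (Finset.mem_filter.1 hρ).2
    exact Finset.mem_biUnion.2 ⟨i, Finset.mem_univ _, Finset.mem_filter.2 ⟨Finset.mem_univ _, hi⟩⟩
  refine (Nat.mul_le_mul_right q h1).trans ?_
  rw [Finset.sum_mul]
  refine (Finset.sum_le_sum fun i _ => Q7_one φ hφ B hB hB2 i).trans ?_
  rw [Finset.sum_const, Finset.card_univ, Fintype.card_fin, smul_eq_mul, mul_assoc]

end QRB
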