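import Pool.Agent.Lib.MP_0087d5_lcQB.Defs

/-!
# Leaf Q8 (easy): more stages

`iso_ext`. Proof: induction on `R`: `tw (WS e K m r (R + 1)) f = K * tw (WS e K m r R) f + ∑ u, (r R ^ e u (f u) % m)`, and the last sum is at most `N * m < K`. `ws_sum`: induction on `R` (`Fin.sum_univ_castSucc`). `ws_symm`: for symmetric `e`. `clog_le`: `Nat.clog 2 N ≤ Nat.log 2 N + 1`.
`log_le`: `N < 2 ^ (L + 1)`, `2 L ≤ 2 ^ L` for `L = Nat.log 2 N ≥ 1`.
-/

set_option autoImplicit false
set_option linter.all false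

namespace QRB

open Finset Pool.Agent Pool.Agent.PMNC MTC LIN PRS

theorem ws_symm {V : Type} (e : V → V → ℕ) (he : ∀ u v, e u v = e v u) (K m : ℕ) (r : ℕ → ℕ) (i : ℕ) (u v : V) :
    WS e K m r i u v = WS e K m r i v u := by
  induction i with
  | zero => rfl
  | succ i ih =>
    change K * WS e K m r i u v + r i ^ e u v % m = K * WS e K m r i v u + r i ^ e v u % m
    rw [ih, he u v]

theorem ws_sum {V : Type} (e : V → V → ℕ) (K m : ℕ) (r : ℕ → ℕ) (R : ℕ) (u v : V) :
    WS e K m r R u v = ∑ i : Fin R, K ^ (R - 1 - (i : ℕ)) * (r i ^ e u v % m) := by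
  induction R with
  | zero => simp [WS]
  | succ R ih =>
    change K * WS e K m r R u v + r R ^ e u v % m = _
    rw [ih, Fin.sum_univ_castSucc, Finset.mul_sum]
    congr 1
    · refine Finset.sum_congr rfl fun i _ => ?_
      rw [← mul_assoc, ← pow_succ']
      have h : R - 1 - (i : ℕ) + 1 = R + 1 - 1 - (i.castSucc : ℕ) := by
        have := i.2
        simp only [Fin.val_castSucc]
        omega
      rw [h]
      rfl
    · simp

theorem iso_ext {N : ℕ} (T : SimpleGraph (Fin N)) (e : Fin N → Fin N → ℕ) (K m : ℕ) (hm : 0 < m) (hK : N * m < K) (r : ℕ → ℕ) {s R : ℕ} (hs : s ≤ R)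
    (h : Iso T (WS e K m r s)) : Iso T (WS e K m r R) := by
  obtain ⟨d, rfl⟩ := Nat.exists_eq_add_of_le hs
  clear hs
  induction d with
  | zero => exact h
  | succ d ih =>
    obtain ⟨f, hf, hmin⟩ := ih
    refine ⟨f, hf, fun f' hf' hne => ?_⟩
    have h1 := hmin f' hf' hne
    have h2 : ∀ g : Fin N → Fin N, MTC.tw (WS e K m r (s + (d + 1))) g =
        K * MTC.tw (WS e K m r (s + d)) g + ∑ u, (r (s + d) ^ e u (g u) % m) := by
      intro g
      unfold MTC.tw
      rw [Finset.mul_sum, ← Finset.sum_add_distrib]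
      rfl
    have h3 : ∑ u, (r (s + d) ^ e u (f u) % m) ≤ N * m := by
      refine (Finset.sum_le_card_nsmul Finset.univ _ m fun u _ => (Nat.mod_lt _ hm).le).trans ?_
      simp
    rw [h2, h2]
    have h4 : K * (MTC.tw (WS e K m r (s + d)) f + 1) ≤ K * MTC.tw (WS e K m r (s + d)) f' := Nat.mul_le_mul_left _ h1
    rw [mul_add, mul_one] at h4
    omega

theorem clog_le {N : ℕ} (hN : 2 ≤ N) : Nat.clog 2 N ≤ 2 * Nat.log 2 N := by
  refine (Nat.clog_le_iff_le_pow (by norm_num)).mpr ?_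
  have h1 : N < 2 ^ (Nat.log 2 N + 1) := Nat.lt_pow_succ_log_self (by norm_num) N
  have h2 : 1 ≤ Nat.log 2 N := Nat.log_pos (by norm_num) hN
  exact h1.le.trans (Nat.pow_le_pow_right (by norm_num) (by omega))

theorem log_le {N : ℕ} (hN : 2 ≤ N) : 2 * Nat.log 2 N ≤ N := by
  have h1 : 2 ^ Nat.log 2 N ≤ N := Nat.pow_log_le_self 2 (by omega)
  have h2 : ∀ L : ℕ, 2 * L ≤ 2 ^ L := by
    intro L
    induction L with
    | zero => simp
    | succ L ih =>
      rcases Nat.eq_zero_or_pos L with rfl | hL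
      · norm_num
      · have h3 : 2 ^ 1 ≤ 2 ^ L := Nat.pow_le_pow_right (by norm_num) hL
        rw [pow_succ]
        omega
  exact (h2 _).trans h1

end QRB
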