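import Pool.Agent.Lib.MP_0087d5_lcQB.Q5
import Pool.Agent.Lib.MP_0087d5_lcQB.Q7
import Pool.Agent.Lib.MP_0087d5_lcQB.Q8

/-!
# Leaf Q11 (medium): few bad choices of the numbers

Proof. Let `R = 2 * Nat.log 2 N`, `φ x = (2 ^ c * x) % m` on `Fin (2 ^ α)`: injective, because `m` is a prime larger than `2 ^ α ≥ 2`. Take `K = N * m + 1` and the sets `B` of `hI`. For `ρ = fun i => (y i).1`: the number of the `ρ` with `φ (ρ i) ∈ B i (ext φ ρ)` for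
some `i : Fin R` is bounded by `rc_count` (`M = N ^ C`). For all other `ρ` the weights `WS eid K m (ext φ ρ) (clog 2 N)` are isolating (`hI`; `clog_le`), so also `WS … R` (`iso_ext`), which is `∑ i, K ^ (R - 1 - i) * ((2 ^ c * ρ i) ^ eid u v % m)` (`ws_sum`, `Nat.pow_mod`);
so the determinant is not the zero polynomial (`pM_ne`), has degree at most `N * (R * m)` (`pM_deg`), and `sz_count` bounds the number of the `ξ = fun i => (y i).2` with value `0`. Split the set of the `y` (equivalence with pairs `(ρ, ξ)`, `Equiv.arrowProdEquivProdArrow`) accordingly: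
`card₁ * 2 ^ α ≤ R * N ^ C * (2 ^ α) ^ R * (2 ^ γ) ^ R` and `card₂ * 2 ^ γ ≤ (2 ^ α) ^ R * (N * (R * m) * (2 ^ γ) ^ R)`.
-/

set_option autoImplicit false
set_option linter.all false

namespace QRB

open Finset Pool.Agent Pool.Agent.PMNC MTC LIN PRS

private theorem Q11_inj {α m c : ℕ} (hm : m.Prime) (hα : 1 ≤ α) (hm2 : 2 ^ α < m) :
    Function.Injective (fun x : Fin (2 ^ α) => 2 ^ c * (x : ℕ) % m) := by
  intro x y h
  have h1 : 2 ^ c * (x : ℕ) ≡ 2 ^ c * (y : ℕ) [MOD m] := h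
  have h2 : Nat.gcd m (2 ^ c) = 1 := by
    refine Nat.Coprime.pow_right _ ?_
    rw [Nat.coprime_comm, Nat.coprime_two_left]
    refine hm.odd_of_ne_two ?_
    have h3 : 2 ^ 1 ≤ 2 ^ α := Nat.pow_le_pow_right (by norm_num) hα
    omega
  have h3 := Nat.ModEq.cancel_left_of_coprime h2 h1
  have h4 := Nat.ModEq.eq_of_lt_of_lt h3 (x.2.trans hm2) (y.2.trans hm2)
  exact Fin.ext h4

/-- the zeros for good numbers -/
private theorem Q11_good {C : ℕ} {N α γ m p c c' : ℕ} (hN : 2 ≤ N) (hm : m.Prime) (hp : p.Prime)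
    (hp2 : p ≠ 2) (hγ : 2 ^ γ ≤ p) (T : SimpleGraph (Fin N)) {B : ℕ → (ℕ → ℕ) → Finset ℕ}
    (hB3 : ∀ r : ℕ → ℕ, (∀ i < Nat.clog 2 N, r i < m ∧ r i ∉ B i r) → Iso T (WS eid (N * m + 1) m r (Nat.clog 2 N)))
    (ρ : Fin (2 * Nat.log 2 N) → Fin (2 ^ α))
    (hρ : ¬ ∃ i : Fin (2 * Nat.log 2 N), (fun x : Fin (2 ^ α) => 2 ^ c * (x : ℕ) % m) (ρ i) ∈
      B i (ext (fun x : Fin (2 ^ α) => 2 ^ c * (x : ℕ) % m) ρ)) :
    Nat.card {ξ : Fin (2 * Nat.log 2 N) → Fin (2 ^ γ) // MvPolynomial.eval (fun i => ((2 ^ c' * (ξ i : ℕ) : ℕ) : ZMod p))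
      (pM p (2 * Nat.log 2 N) T (fun i u v => (2 ^ c * ((ρ i : Fin (2 ^ α)) : ℕ)) ^ eid u v % m)).det = 0} * 2 ^ γ ≤
        N * (2 * Nat.log 2 N * m) * (2 ^ γ) ^ (2 * Nat.log 2 N) := by
  haveI : Fact p.Prime := ⟨hp⟩
  obtain ⟨r, hr⟩ : ∃ r : ℕ → ℕ, r = ext (fun x : Fin (2 ^ α) => 2 ^ c * (x : ℕ) % m) ρ := ⟨_, rfl⟩
  have hr1 : ∀ i : Fin (2 * Nat.log 2 N), r i = 2 ^ c * ((ρ i : Fin (2 ^ α)) : ℕ) % m := by
    intro i
    rw [hr]
    unfold ext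
    rw [dif_pos i.2]
  have h1 : Iso T (WS eid (N * m + 1) m r (Nat.clog 2 N)) := by
    refine hB3 r fun i hi => ?_
    have hi' : i < 2 * Nat.log 2 N := lt_of_lt_of_le hi (clog_le hN)
    have h2 := hr1 ⟨i, hi'⟩
    dsimp only at h2
    refine ⟨?_, fun h3 => hρ ⟨⟨i, hi'⟩, ?_⟩⟩
    · rw [h2]
      exact Nat.mod_lt _ hm.pos
    · rw [h2, hr] at h3
      exact h3
  have h2 := iso_ext T eid (N * m + 1) m hm.pos (Nat.lt_succ_self _) r (clog_le hN) h1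
  have h3 : WS (V := Fin N) eid (N * m + 1) m r (2 * Nat.log 2 N) = fun u v : Fin N => ∑ i : Fin (2 * Nat.log 2 N),
      (N * m + 1) ^ (2 * Nat.log 2 N - 1 - (i : ℕ)) * ((2 ^ c * ((ρ i : Fin (2 ^ α)) : ℕ)) ^ eid u v % m) := by
    funext u v
    rw [ws_sum]
    refine Finset.sum_congr rfl fun i _ => ?_
    rw [hr1 i, ← Nat.pow_mod]
  rw [h3] at h2
  have h4 := pM_ne p (2 * Nat.log 2 N) (N * m + 1) T
    (fun i u v => (2 ^ c * ((ρ i : Fin (2 ^ α)) : ℕ)) ^ eid u v % m) (fun i u v => by rw [eid_comm u v]) h2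
  have h5 := pM_deg p (2 * Nat.log 2 N) m T
    (fun i u v => (2 ^ c * ((ρ i : Fin (2 ^ α)) : ℕ)) ^ eid u v % m) (fun i u v => (Nat.mod_lt _ hm.pos).le)
  exact (sz_count hp2 hγ _ h4).trans (Nat.mul_le_mul_right _ h5)

/-- the count over pairs -/
private theorem Q11_pairs {R a g : ℕ} (Z : (Fin R → Fin a) → (Fin R → Fin g) → Prop) :
    Nat.card {y : Fin R → Fin a × Fin g // Z (fun i => (y i).1) (fun i => (y i).2)} =
      ∑ ρ : Fin R → Fin a, Nat.card {ξ : Fin R → Fin g // Z ρ ξ} := by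
  classical
  have h1 : Nat.card {y : Fin R → Fin a × Fin g // Z (fun i => (y i).1) (fun i => (y i).2)} =
      Nat.card {x : (Fin R → Fin a) × (Fin R → Fin g) // Z x.1 x.2} := by
    refine Nat.card_congr ?_
    exact (Equiv.arrowProdEquivProdArrow (Fin R) (fun _ => Fin a) (fun _ => Fin g)).subtypeEquiv fun y => Iff.rfl
  rw [h1, Nat.card_eq_fintype_card, Fintype.card_subtype, Finset.card_filter, Fintype.sum_prod_type]
  refine Finset.sum_congr rfl fun ρ _ => ?_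
  rw [Nat.card_eq_fintype_card, Fintype.card_subtype, Finset.card_filter]

theorem bad_count {C : ℕ} (hI : IsoMost C) {N α γ m p c c' : ℕ} (hN : 2 ≤ N) (hm : m.Prime) (hα : 1 ≤ α) (hm2 : 2 ^ α < m) (hp : p.Prime)
    (hp2 : p ≠ 2) (hγ : 2 ^ γ ≤ p) (T : SimpleGraph (Fin N)) (hT : HasPM T) :
    Nat.card {y : Fin (2 * Nat.log 2 N) → Fin (2 ^ α) × Fin (2 ^ γ) // MvPolynomial.eval (fun i => ((2 ^ c' * ((y i).2 : ℕ) : ℕ) : ZMod p))
      (pM p (2 * Nat.log 2 N) T (fun i u v => (2 ^ c * ((y i).1 : ℕ)) ^ eid u v % m)).det = 0} * (2 ^ α * 2 ^ γ) ≤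
    (2 * Nat.log 2 N * N ^ C * 2 ^ γ + N * (2 * Nat.log 2 N * m) * 2 ^ α) * (2 ^ α * 2 ^ γ) ^ (2 * Nat.log 2 N) := by
  classical
  obtain ⟨B, hB1, hB2, hB3⟩ := hI N hN m hm (N * m + 1) (Nat.lt_succ_self _) T hT
  obtain ⟨R, hR⟩ : ∃ R : ℕ, R = 2 * Nat.log 2 N := ⟨_, rfl⟩
  have hbad := rc_count (R := 2 * Nat.log 2 N) (M := N ^ C) (fun x : Fin (2 ^ α) => 2 ^ c * (x : ℕ) % m)
    (Q11_inj hm hα hm2) B hB1 hB2
  have hgood := fun ρ : Fin (2 * Nat.log 2 N) → Fin (2 ^ α) => Q11_good (C := C) (c := c) (c' := c') hN hm hp hp2 hγ T hB3 ρ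
  have hpairs := Q11_pairs (R := 2 * Nat.log 2 N) (a := 2 ^ α) (g := 2 ^ γ) (fun ρ ξ =>
    MvPolynomial.eval (fun i => ((2 ^ c' * (ξ i : ℕ) : ℕ) : ZMod p))
      (pM p (2 * Nat.log 2 N) T (fun i u v => (2 ^ c * ((ρ i : Fin (2 ^ α)) : ℕ)) ^ eid u v % m)).det = 0)
  rw [hpairs]
  rw [← hR] at hbad hgood ⊢
  obtain ⟨bad, hbd⟩ : ∃ bad : (Fin R → Fin (2 ^ α)) → Prop, bad = fun ρ => ∃ i : Fin R,
    (fun x : Fin (2 ^ α) => 2 ^ c * (x : ℕ) % m) (ρ i) ∈ B i (ext (fun x : Fin (2 ^ α) => 2 ^ c * (x : ℕ) % m) ρ) := ⟨_, rfl⟩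
  have hbad' : (∑ ρ : Fin R → Fin (2 ^ α), if bad ρ then 1 else 0) * 2 ^ α ≤ R * N ^ C * (2 ^ α) ^ R := by
    rw [← Finset.card_filter, ← Fintype.card_subtype, ← Nat.card_eq_fintype_card, hbd]
    exact hbad
  have hone : ∀ ρ : Fin R → Fin (2 ^ α), Nat.card {ξ : Fin R → Fin (2 ^ γ) //
      MvPolynomial.eval (fun i => ((2 ^ c' * (ξ i : ℕ) : ℕ) : ZMod p))
      (pM p R T (fun i u v => (2 ^ c * ((ρ i : Fin (2 ^ α)) : ℕ)) ^ eid u v % m)).det = 0} * (2 ^ α * 2 ^ γ) ≤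
        (if bad ρ then 1 else 0) * ((2 ^ γ) ^ R * (2 ^ α * 2 ^ γ)) + N * (R * m) * (2 ^ γ) ^ R * 2 ^ α := by
    intro ρ
    by_cases h : bad ρ
    · rw [if_pos h, one_mul]
      refine le_trans ?_ (Nat.le_add_right _ _)
      refine Nat.mul_le_mul_right _ ?_
      rw [Nat.card_eq_fintype_card]
      refine (Fintype.card_subtype_le _).trans ?_
      rw [Fintype.card_fun, Fintype.card_fin, Fintype.card_fin]
    · rw [if_neg h, zero_mul, zero_add]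
      have h1 := hgood ρ (by
        rw [hbd] at h
        exact h)
      calc _ = (Nat.card {ξ : Fin R → Fin (2 ^ γ) //
          MvPolynomial.eval (fun i => ((2 ^ c' * (ξ i : ℕ) : ℕ) : ZMod p))
          (pM p R T (fun i u v => (2 ^ c * ((ρ i : Fin (2 ^ α)) : ℕ)) ^ eid u v % m)).det = 0} * 2 ^ γ) * 2 ^ α := by ring
        _ ≤ _ := Nat.mul_le_mul_right _ h1
  have hcard : Fintype.card (Fin R → Fin (2 ^ α)) = (2 ^ α) ^ R := by
    rw [Fintype.card_fun, Fintype.card_fin, Fintype.card_fin]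
  calc _ = ∑ ρ : Fin R → Fin (2 ^ α), Nat.card {ξ : Fin R → Fin (2 ^ γ) //
          MvPolynomial.eval (fun i => ((2 ^ c' * (ξ i : ℕ) : ℕ) : ZMod p))
          (pM p R T (fun i u v => (2 ^ c * ((ρ i : Fin (2 ^ α)) : ℕ)) ^ eid u v % m)).det = 0} * (2 ^ α * 2 ^ γ) :=
        Finset.sum_mul _ _ _
    _ ≤ ∑ ρ : Fin R → Fin (2 ^ α), ((if bad ρ then 1 else 0) * ((2 ^ γ) ^ R * (2 ^ α * 2 ^ γ)) +
          N * (R * m) * (2 ^ γ) ^ R * 2 ^ α) := Finset.sum_le_sum fun ρ _ => hone ρ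
    _ = (∑ ρ : Fin R → Fin (2 ^ α), if bad ρ then 1 else 0) * ((2 ^ γ) ^ R * (2 ^ α * 2 ^ γ)) +
          (2 ^ α) ^ R * (N * (R * m) * (2 ^ γ) ^ R * 2 ^ α) := by
        rw [Finset.sum_add_distrib, ← Finset.sum_mul, Finset.sum_const, Finset.card_univ, hcard, smul_eq_mul]
    _ = ((∑ ρ : Fin R → Fin (2 ^ α), if bad ρ then 1 else 0) * 2 ^ α) * ((2 ^ γ) ^ R * 2 ^ γ) +
          (2 ^ α) ^ R * (N * (R * m) * (2 ^ γ) ^ R * 2 ^ α) := by ring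
    _ ≤ (R * N ^ C * (2 ^ α) ^ R) * ((2 ^ γ) ^ R * 2 ^ γ) +
          (2 ^ α) ^ R * (N * (R * m) * (2 ^ γ) ^ R * 2 ^ α) :=
        Nat.add_le_add_right (Nat.mul_le_mul_right _ hbad') _
    _ = _ := by
        rw [mul_pow]
        ring

end QRB
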