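import Pool.Agent.Lib.MP_0087d5_lcQB.Q6
import Pool.Agent.Lib.MP_0087d5_lcQB.Q10

/-!
# Leaf Q12 (easy+): a nonzero value gives acceptance

Proof. `m`, `p` are values `nv e.1`, `nv e.2` (`nv_surj` (S := S)); `prS_iff`. The matrix: `zR_eval` (leaf Q6) with `N = n + n`, `X = pair G A`; `Fin.castLE _ i = Fin.castAdd n (Fin.castLE hR i)`, `num_pair` (leaf Q10) and `hx`, `hy` give `num 2 a X _ = x i`, `num a b X _ = y i`;
`rz m ((x : ℤ) ^ e) = x ^ e % m` for natural `x` (`rz` is `(a % m).toNat`). `nd p z` means `0 < nv p` and `nv p` does not divide `z` (`ZMod.intCast_zmod_eq_zero_iff_dvd`, `(ZMod.intCast_zmod_eq_zero_iff_dvd _ _).1`).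
-/

set_option autoImplicit false
set_option linter.all false

namespace QRB

open Finset Pool.Agent Pool.Agent.PMNC MTC LIN PRS

theorem acc_of {S : ℕ → Type} [Env S] [∀ n, Fintype (S n)] {n a b m p : ℕ} (hR : 2 * Nat.log 2 (n + n) ≤ n) (hm : m.Prime) (hmS : m < (n + n) ^ dim S)
    (hp : p.Prime) (hpS : p < (n + n) ^ dim S) (G A : SimpleGraph (Fin n)) (T : SimpleGraph (Fin (n + n))) (x y : Fin (2 * Nat.log 2 (n + n)) → ℕ)
    (hx : ∀ i, dig (2 * Nat.log 2 (n + n)) (a * Nat.log 2 (n + n)) A (Fin.castLE hR i) = x i)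
    (hy : ∀ i, dig (a * Nat.log 2 (n + n)) (b * Nat.log 2 (n + n)) A (Fin.castLE hR i) = y i)
    (h : MvPolynomial.eval (fun i => ((y i : ℕ) : ZMod p)) (pM p (2 * Nat.log 2 (n + n)) T (fun i u v => x i ^ eid u v % m)).det ≠ 0) :
    AccR S a b (pair G A) T := by
  obtain ⟨m', hm'⟩ := nv_surj (S := S) hmS
  obtain ⟨p', rfl⟩ := nv_surj (S := S) hpS
  have hRN : 2 * Nat.log 2 (n + n) ≤ n + n := hR.trans (Nat.le_add_right _ _)
  have h1 : ∀ i : Fin (2 * Nat.log 2 (n + n)), num a b (pair G A) (Fin.castLE hRN i) = ((y i : ℕ) : ℤ) := by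
    intro i
    have h2 : Fin.castLE hRN i = Fin.castAdd n (Fin.castLE hR i) := rfl
    rw [h2, num_pair, hy]
  have h3 : ∀ i : Fin (2 * Nat.log 2 (n + n)), num 2 a (pair G A) (Fin.castLE hRN i) = ((x i : ℕ) : ℤ) := by
    intro i
    have h2 : Fin.castLE hRN i = Fin.castAdd n (Fin.castLE hR i) := rfl
    rw [h2, num_pair, hx]
  have h4 : ∀ (i : Fin (2 * Nat.log 2 (n + n))) (u v : Fin (n + n)),
      rz m (num 2 a (pair G A) (Fin.castLE hRN i) ^ eid u v) = x i ^ eid u v % m := by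
    intro i u v
    rw [h3]
    unfold rz
    rw [← Nat.cast_pow, ← Int.natCast_mod]
    exact Int.toNat_natCast _
  refine ⟨(m', p'), (prS_iff p').2 hp, ?_, ?_⟩
  · show ¬ nv m' = 0
    rw [hm']
    exact hm.ne_zero
  · show nd p' (zdet (T := fun n => Fin n) (zR a b (nv m') (pair G A) T))
    rw [hm', nd_iff hp.pos, zR_eval (hR := hRN)]
    simp only [h1, h4, Int.cast_natCast]
    exact h

end QRB
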