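import Pool.Agent.Lib.MP_0087d5_lcQB.Q9
import Pool.Agent.Lib.MP_0087d5_lcQB.Q11
import Pool.Agent.Lib.MP_0087d5_lcQB.Q12

/-!
# Leaf Q13 (medium-): the probability of failure of one test

Proof. `a' = C + 1 + t`, `a = 2 + 2 * a'`, `g' = 2 * a' + 3 + t`, `b = a + 2 * g'`, `D = 2 * g' + 2`. Let `N = n + n`, `L = Nat.log 2 N ≥ 1`, `α = (a - 2) * L = 2 * a' * L`, `γ = (b - a) * L = 2 * g' * L`. `N ≤ 2 ^ (2 * L) ≤ N ^ 2`, so `N ^ a' ≤ 2 ^ α ≤ N ^ (2 * a')` and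
`N ^ g' ≤ 2 ^ γ ≤ N ^ (2 * g')`. Primes `m`, `p` with `2 ^ α < m ≤ 2 ^ (α + 1)`, `2 ^ γ < p ≤ 2 ^ (γ + 1)` (`Nat.exists_prime_lt_and_le_two_mul`). `n0`: such that for `n ≥ n0`: `2 ≤ n`, `2 * Nat.log 2 (n + n) ≤ n`, `2 * b * Nat.log 2 n ≤ n`
(`Nat.log 2 (n + n) = Nat.log 2 n + 1`; `b * L ≤ 2 * b * Nat.log 2 n`). `seed_count` (leaf Q9) with `R = c0 = 2 * L`, `c1 = a * L`, `c2 = b * L`, `K = 2 * b * Nat.log 2 n` gives `code`; if `A` is not accepted, then `code A` is in the set of `bad_count` (leaf Q11;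
`acc_of`, leaf Q12), with `Q = 2 ^ α * 2 ^ γ`: `card * Q ^ R ≤ card Bad * card Ω`, `card Bad * Q ≤ (R * N ^ C * 2 ^ γ + N * (R * m) * 2 ^ α) * Q ^ R`, `R ≤ N` (`log_le`), so `card * Q ≤ (N ^ (C + 1) * 2 ^ γ + N ^ 2 * m * 2 ^ α) * card Ω`; multiply by `N ^ t`:
`N ^ (C + 1 + t) ≤ 2 ^ α`, `N ^ (2 + t) * m ≤ N ^ (2 + t) * (N * N ^ (2 * a')) = N ^ g' ≤ 2 ^ γ`.
-/

set_option autoImplicit false
set_option linter.all false

namespace QRB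

open Finset Pool.Agent Pool.Agent.PMNC MTC LIN PRS

private theorem Q13_grow (c : ℕ) (hc : 1 ≤ c) : ∀ n : ℕ, 2 ^ (4 * c) ≤ n → 1 ≤ Nat.log 2 n ∧ c * Nat.log 2 n ≤ n := by
  intro n hn
  have hn0 : n ≠ 0 := by
    have : 0 < 2 ^ (4 * c) := by positivity
    omega
  have hL : 4 * c ≤ Nat.log 2 n := by
    have := Nat.log_mono_right (b := 2) hn
    rwa [Nat.log_pow (by norm_num)] at this
  have hp : 2 ^ Nat.log 2 n ≤ n := Nat.pow_log_le_self 2 hn0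
  refine ⟨by omega, ?_⟩
  set L := Nat.log 2 n with hLdef
  have h1 : L / 2 < 2 ^ (L / 2) := Nat.lt_two_pow_self
  have h2 : (L / 2 + 1) * (L / 2 + 1) ≤ 2 ^ (L / 2) * 2 ^ (L / 2) := Nat.mul_le_mul h1 h1
  have h3 : 2 ^ (L / 2) * 2 ^ (L / 2) ≤ 2 ^ L := by
    rw [← pow_add]
    exact Nat.pow_le_pow_right (by norm_num) (by omega)
  have h4 : c * L ≤ (L / 2 + 1) * (L / 2 + 1) := by
    have h5 : L ≤ 2 * (L / 2) + 1 := by omega
    have h6 : 2 * c ≤ L / 2 := by omega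
    nlinarith [Nat.mul_le_mul_left c h5, Nat.mul_le_mul_right (L / 2) h6]
  omega

theorem fail_count {C : ℕ} (hI : IsoMost C) (t : ℕ) : ∃ a b n0 D : ℕ, 2 ≤ n0 ∧ ∀ (S : ℕ → Type) [Env S] [∀ n, Fintype (S n)], D ≤ dim S →
    ∀ n : ℕ, n0 ≤ n → ∀ (G : SimpleGraph (Fin n)) (T : SimpleGraph (Fin (n + n))), HasPM T →
      Nat.card {A : SimpleGraph (Fin n) // Sup (2 * b * Nat.log 2 n) A ∧ ¬ AccR S a b (pair G A) T} * (n + n) ^ t ≤
        2 * Nat.card {A : SimpleGraph (Fin n) // Sup (2 * b * Nat.log 2 n) A} := by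
  obtain ⟨a', ha'⟩ : ∃ a' : ℕ, a' = C + 1 + t := ⟨_, rfl⟩
  obtain ⟨g', hg'⟩ : ∃ g' : ℕ, g' = 2 * a' + 3 + t := ⟨_, rfl⟩
  refine ⟨2 + 2 * a', 2 + 2 * a' + 2 * g', 2 ^ (4 * (2 * (2 + 2 * a' + 2 * g') + 4)), 2 * g' + 2, ?_, ?_⟩
  · calc 2 = 2 ^ 1 := by norm_num
      _ ≤ _ := Nat.pow_le_pow_right (by norm_num) (by omega)
  intro S _ _ hD n hn G T hT
  obtain ⟨a, ha⟩ : ∃ a : ℕ, a = 2 + 2 * a' := ⟨_, rfl⟩
  obtain ⟨b, hb⟩ : ∃ b : ℕ, b = 2 + 2 * a' + 2 * g' := ⟨_, rfl⟩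
  rw [← hb] at hn ⊢
  rw [← ha]
  obtain ⟨hl1, hl2⟩ := Q13_grow (2 * b + 4) (by omega) n hn
  have hn2 : 2 ≤ n := by
    have : 2 ^ Nat.log 2 n ≤ n := Nat.pow_log_le_self 2 (by
      rintro rfl
      simp at hl1)
    calc 2 = 2 ^ 1 := by norm_num
      _ ≤ 2 ^ Nat.log 2 n := Nat.pow_le_pow_right (by norm_num) hl1
      _ ≤ n := this
  obtain ⟨L, hL⟩ : ∃ L : ℕ, L = Nat.log 2 (n + n) := ⟨_, rfl⟩
  have hLl : L = Nat.log 2 n + 1 := by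
    rw [hL, ← two_mul, mul_comm, Nat.log_mul_base (by norm_num) (by omega)]
  obtain ⟨N, hN⟩ : ∃ N : ℕ, N = n + n := ⟨_, rfl⟩
  have hN2 : 2 ≤ N := by omega
  have hL1 : 1 ≤ L := by omega
  have hlin : 2 * b * Nat.log 2 n + 4 * Nat.log 2 n ≤ n := by
    calc 2 * b * Nat.log 2 n + 4 * Nat.log 2 n = (2 * b + 4) * Nat.log 2 n := by ring
      _ ≤ n := hl2
  have hK : 2 * b * Nat.log 2 n ≤ n := by omega
  have hR : 2 * Nat.log 2 (n + n) ≤ n := by rw [← hL]; omega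
  have h1 : 2 * Nat.log 2 (n + n) ≤ a * Nat.log 2 (n + n) := Nat.mul_le_mul_right _ (by omega)
  have h2 : a * Nat.log 2 (n + n) ≤ b * Nat.log 2 (n + n) := Nat.mul_le_mul_right _ (by omega)
  have h3 : b * Nat.log 2 (n + n) ≤ 2 * b * Nat.log 2 n := by
    rw [← hL, mul_assoc, mul_comm 2 (b * _), mul_assoc]
    exact Nat.mul_le_mul_left _ (by omega)
  obtain ⟨code, hcode, hcount⟩ := seed_count (n := n) (R := 2 * Nat.log 2 (n + n)) (c0 := 2 * Nat.log 2 (n + n)) (c1 := a * Nat.log 2 (n + n))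
    (c2 := b * Nat.log 2 (n + n)) (K := 2 * b * Nat.log 2 n) le_rfl h1 h2 h3 hK hR
  obtain ⟨α, hα⟩ : ∃ α : ℕ, α = a * Nat.log 2 (n + n) - 2 * Nat.log 2 (n + n) := ⟨_, rfl⟩
  obtain ⟨γ, hγ⟩ : ∃ γ : ℕ, γ = b * Nat.log 2 (n + n) - a * Nat.log 2 (n + n) := ⟨_, rfl⟩
  have hαe : α = L * 2 * a' := by
    rw [hα, ← hL, ha, ← Nat.sub_mul]
    rw [show 2 + 2 * a' - 2 = 2 * a' by omega]
    ring
  have hγe : γ = L * 2 * g' := by
    rw [hγ, ← hL, hb, ha, ← Nat.sub_mul]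
    rw [show 2 + 2 * a' + 2 * g' - (2 + 2 * a') = 2 * g' by omega]
    ring
  have hLN : 2 ^ L ≤ N := by rw [hL, hN]; exact Nat.pow_log_le_self 2 (by omega)
  have hNL : N ≤ 2 ^ (L * 2) := by
    have : N < 2 ^ (L + 1) := by rw [hL, hN]; exact Nat.lt_pow_succ_log_self (by norm_num) _
    exact this.le.trans (Nat.pow_le_pow_right (by norm_num) (by omega))
  have hα1 : 1 ≤ α := by
    rw [hαe]
    have : 1 ≤ a' := by omega
    nlinarith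
  have hγ1 : 1 ≤ γ := by
    rw [hγe]
    have : 1 ≤ g' := by omega
    nlinarith
  have hαN : 2 ^ α ≤ N ^ (2 * a') := by
    rw [hαe, mul_assoc, pow_mul]
    exact Nat.pow_le_pow_left hLN _
  have hγN : 2 ^ γ ≤ N ^ (2 * g') := by
    rw [hγe, mul_assoc, pow_mul]
    exact Nat.pow_le_pow_left hLN _
  have hNα : N ^ a' ≤ 2 ^ α := by
    rw [hαe, pow_mul]
    exact Nat.pow_le_pow_left hNL _
  have hNγ : N ^ g' ≤ 2 ^ γ := by
    rw [hγe, pow_mul]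
    exact Nat.pow_le_pow_left hNL _
  obtain ⟨m, hm, hm1, hm2⟩ := Nat.exists_prime_lt_and_le_two_mul (2 ^ α) (by positivity)
  obtain ⟨p, hp, hp1, hp2⟩ := Nat.exists_prime_lt_and_le_two_mul (2 ^ γ) (by positivity)
  have hmN : m ≤ N ^ (2 * a' + 1) := by
    calc m ≤ 2 * 2 ^ α := hm2
      _ ≤ N * N ^ (2 * a') := Nat.mul_le_mul hN2 hαN
      _ = N ^ (2 * a' + 1) := by rw [pow_succ]; ring
  have hpN : p ≤ N ^ (2 * g' + 1) := by
    calc p ≤ 2 * 2 ^ γ := hp2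
      _ ≤ N * N ^ (2 * g') := Nat.mul_le_mul hN2 hγN
      _ = N ^ (2 * g' + 1) := by rw [pow_succ]; ring
  have hmS : m < (n + n) ^ dim S := by
    rw [← hN]
    exact lt_of_le_of_lt hmN (Nat.pow_lt_pow_right (by omega) (by omega))
  have hpS : p < (n + n) ^ dim S := by
    rw [← hN]
    exact lt_of_le_of_lt hpN (Nat.pow_lt_pow_right (by omega) (by omega))
  have hpn2 : p ≠ 2 := by
    have : 2 ^ 1 ≤ 2 ^ γ := Nat.pow_le_pow_right (by norm_num) hγ1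
    omega
  have hbad := bad_count hI (N := n + n) (α := α) (γ := γ) (m := m) (p := p) (c := 2 * Nat.log 2 (n + n)) (c' := a * Nat.log 2 (n + n))
    (by omega) hm hα1 hm1 hp hpn2 hp1.le T hT
  subst hα
  subst hγ
  set Bad : Set (Fin (2 * Nat.log 2 (n + n)) → Fin (2 ^ (a * Nat.log 2 (n + n) - 2 * Nat.log 2 (n + n))) ×
      Fin (2 ^ (b * Nat.log 2 (n + n) - a * Nat.log 2 (n + n)))) :=
    {y | MvPolynomial.eval (fun i => ((2 ^ (a * Nat.log 2 (n + n)) * ((y i).2 : ℕ) : ℕ) : ZMod p))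
      (pM p (2 * Nat.log 2 (n + n)) T (fun i u v => (2 ^ (2 * Nat.log 2 (n + n)) * ((y i).1 : ℕ)) ^ eid u v % m)).det = 0} with hBad
  have hc := hcount Bad
  have hle : Nat.card {A : SimpleGraph (Fin n) // Sup (2 * b * Nat.log 2 n) A ∧ ¬ AccR S a b (pair G A) T} ≤
      Nat.card {A : SimpleGraph (Fin n) // Sup (2 * b * Nat.log 2 n) A ∧ code A ∈ Bad} := by
    refine Nat.card_le_card_of_injective (fun A => ⟨A.1, A.2.1, ?_⟩) ?_
    · by_contra hnb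
      refine A.2.2 (acc_of (S := S) hR hm hmS hp hpS G A.1 T (fun i => 2 ^ (2 * Nat.log 2 (n + n)) * ((code A.1 i).1 : ℕ))
        (fun i => 2 ^ (a * Nat.log 2 (n + n)) * ((code A.1 i).2 : ℕ)) (fun i => (hcode A.1 i).1) (fun i => (hcode A.1 i).2) ?_)
      exact hnb
    · intro A A' h
      apply Subtype.ext
      exact congrArg (fun x => x.1) h
  have hbad' : Nat.card Bad * (2 ^ (a * Nat.log 2 (n + n) - 2 * Nat.log 2 (n + n)) * 2 ^ (b * Nat.log 2 (n + n) - a * Nat.log 2 (n + n))) ≤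
      (2 * Nat.log 2 (n + n) * (n + n) ^ C * 2 ^ (b * Nat.log 2 (n + n) - a * Nat.log 2 (n + n)) +
        (n + n) * (2 * Nat.log 2 (n + n) * m) * 2 ^ (a * Nat.log 2 (n + n) - 2 * Nat.log 2 (n + n))) *
        (2 ^ (a * Nat.log 2 (n + n) - 2 * Nat.log 2 (n + n)) * 2 ^ (b * Nat.log 2 (n + n) - a * Nat.log 2 (n + n))) ^ (2 * Nat.log 2 (n + n)) := hbad
  obtain ⟨P, hP⟩ : ∃ P : ℕ, P = 2 ^ (a * Nat.log 2 (n + n) - 2 * Nat.log 2 (n + n)) := ⟨_, rfl⟩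
  obtain ⟨Q, hQ⟩ : ∃ Q : ℕ, Q = 2 ^ (b * Nat.log 2 (n + n) - a * Nat.log 2 (n + n)) := ⟨_, rfl⟩
  obtain ⟨R, hRd⟩ : ∃ R : ℕ, R = 2 * Nat.log 2 (n + n) := ⟨_, rfl⟩
  obtain ⟨Om, hOm⟩ : ∃ Om : ℕ, Om = Nat.card {A : SimpleGraph (Fin n) // Sup (2 * b * Nat.log 2 n) A} := ⟨_, rfl⟩
  obtain ⟨F', hF'⟩ : ∃ F' : ℕ, F' = Nat.card {A : SimpleGraph (Fin n) // Sup (2 * b * Nat.log 2 n) A ∧ code A ∈ Bad} := ⟨_, rfl⟩
  obtain ⟨Bc, hBc⟩ : ∃ Bc : ℕ, Bc = Nat.card Bad := ⟨_, rfl⟩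
  have hRN : R ≤ N := by rw [hRd, hN]; exact log_le (by omega)
  rw [← hBc, ← hF', ← hOm, ← hP, ← hQ, ← hRd] at hc
  rw [← hBc, ← hP, ← hQ, ← hRd, ← hN] at hbad'
  rw [← hP] at hNα
  rw [← hQ] at hNγ
  rw [← hF'] at hle
  rw [← hOm]
  have hP0 : 0 < P := by rw [hP]; positivity
  have hQ0 : 0 < Q := by rw [hQ]; positivity
  have hmain : F' * (P * Q) ≤ (R * N ^ C * Q + N * (R * m) * P) * Om := by
    have h5 : F' * (P * Q) * (P * Q) ^ R ≤ (R * N ^ C * Q + N * (R * m) * P) * Om * (P * Q) ^ R := by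
      calc F' * (P * Q) * (P * Q) ^ R = F' * (P * Q) ^ R * (P * Q) := by ring
        _ = Bc * Om * (P * Q) := by rw [hc]
        _ = Bc * (P * Q) * Om := by ring
        _ ≤ ((R * N ^ C * Q + N * (R * m) * P) * (P * Q) ^ R) * Om := Nat.mul_le_mul_right _ hbad'
        _ = (R * N ^ C * Q + N * (R * m) * P) * Om * (P * Q) ^ R := by ring
    exact Nat.le_of_mul_le_mul_right h5 (by positivity)
  have hA : R * N ^ C * N ^ t ≤ P := by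
    calc R * N ^ C * N ^ t ≤ N * N ^ C * N ^ t := by gcongr
      _ = N ^ a' := by rw [ha']; ring
      _ ≤ P := hNα
  have hB : N * (R * m) * N ^ t ≤ Q := by
    calc N * (R * m) * N ^ t ≤ N * (N * N ^ (2 * a' + 1)) * N ^ t := by gcongr
      _ = N ^ g' := by rw [hg']; ring
      _ ≤ Q := hNγ
  have hfin : F' * N ^ t * (P * Q) ≤ 2 * Om * (P * Q) := by
    calc F' * N ^ t * (P * Q) = F' * (P * Q) * N ^ t := by ring
      _ ≤ (R * N ^ C * Q + N * (R * m) * P) * Om * N ^ t := Nat.mul_le_mul_right _ hmain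
      _ = (R * N ^ C * N ^ t * Q + N * (R * m) * N ^ t * P) * Om := by ring
      _ ≤ (P * Q + Q * P) * Om := by gcongr
      _ = 2 * Om * (P * Q) := by ring
  calc _ ≤ F' * (n + n) ^ t := Nat.mul_le_mul_right _ hle
    _ = F' * N ^ t := by rw [← hN]
    _ ≤ 2 * Om := Nat.le_of_mul_le_mul_right hfin (by positivity)

end QRB
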