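import Pool.Agent.Lib.MP_0087d5_lcQB.Q4

/-!
# Leaf Q14 (medium-): correctness of the outputs

`ur_main`. Proof: as `mr_main` (file PR/XH), simpler: `AccR … (T1 … d)` holds if and only if `T1 … d` has a perfect matching (`accR_sound`, `h1`), i.e. `d₀ ≤ d` (`t1_char`, `d₀` the least `ZER.mis f`, at most `n`); so `LsR` holds exactly for `d₀`, `DfR (castAdd v) ↔ v < d₀` (number of these
`v : Fin n`: `d₀`), and `GdR (castAdd v) ↔ ∃ f, Mt G f ∧ mis f = d₀ ∧ f v = v` (`t2_char`); then `ZER.ge_all`.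
`df_sound`. Proof: if no deficiency `d < n` is accepted then the set is everything (`DfR (castAdd v)`: all accepted `d` are at least `n`), and `f = id` has `mis f = n`. Otherwise for the least accepted `d`: `T1 … d` has a perfect matching (`accR_sound`), `t1_char`; the set has
exactly `d` elements.
`mt_sub`. Proof: `M.verts = {x | f x ≠ x}`, `M.Adj x y ↔ f x = y ∧ f x ≠ x`; its complement is the set of the fixed points.
-/

set_option autoImplicit false
set_option linter.all false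

namespace QRB

open Finset Pool.Agent Pool.Agent.PMNC MTC LIN PRS

private theorem Q14_lo {n : ℕ} (a : Fin n) : lo (Fin.castAdd n a : Fin (n + n)) := by
  have := a.2
  simp only [lo, Fin.val_castAdd]
  omega

private theorem Q14_hi {n : ℕ} (a : Fin n) : ¬ lo (Fin.natAdd n a : Fin (n + n)) := by
  simp only [lo, Fin.val_natAdd]
  omega

private theorem Q14_ll {n : ℕ} (G A : SimpleGraph (Fin n)) (a b : Fin n) :
    (pair G A).Adj (Fin.castAdd n a) (Fin.castAdd n b) ↔ G.Adj a b := by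
  change (G ⊕g A).Adj (finSumFinEquiv.symm (Fin.castAdd n a)) (finSumFinEquiv.symm (Fin.castAdd n b)) ↔ _
  rw [finSumFinEquiv_symm_apply_castAdd, finSumFinEquiv_symm_apply_castAdd]
  rfl

private theorem Q14_card {n d : ℕ} (h : d ≤ n) : Nat.card {v : Fin n // (v : ℕ) < d} = d := by
  let e : {v : Fin n // (v : ℕ) < d} ≃ Fin d :=
    { toFun := fun v => ⟨v.1.1, v.2⟩
      invFun := fun i => ⟨⟨i.1, lt_of_lt_of_le i.2 h⟩, i.2⟩
      left_inv := fun v => rfl
      right_inv := fun i => rfl }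
  rw [Nat.card_congr e, Nat.card_eq_fintype_card, Fintype.card_fin]

private theorem Q14_mis {n : ℕ} (f : Fin n → Fin n) : ZER.mis f ≤ n := by
  classical
  unfold ZER.mis
  rw [Nat.card_eq_fintype_card]
  exact (Fintype.card_subtype_le _).trans_eq (Fintype.card_fin n)

section
variable {S : ℕ → Type} [Env S] [∀ n, Fintype (S n)] {n : ℕ}

theorem ur_main (a b : ℕ) (hn : 1 ≤ n) (G A : SimpleGraph (Fin n))
    (h1 : ∀ d, HasPM (T1 (n + n) (pair G A) d) → AccR S a b (pair G A) (T1 (n + n) (pair G A) d))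
    (h2 : ∀ d v, HasPM (T2 (n + n) (pair G A) (d, v)) → AccR S a b (pair G A) (T2 (n + n) (pair G A) (d, v))) :
    Nat.card {v // ZER.oddRep G (fun w => UrR S a b (pair G A) (Fin.castAdd n w)) v} =
      Nat.card {w : Fin n // UrR S a b (pair G A) (Fin.castAdd n w)} + Nat.card {v : Fin n // DfR S a b (pair G A) (Fin.castAdd n v)} := by
  classical
  have hex : ∃ d, ∃ f, ZER.Mt G f ∧ ZER.mis f = d := by
    refine ⟨_, id, ⟨fun x => rfl, fun x hx => absurd rfl hx⟩, rfl⟩
  obtain ⟨d₀, ⟨f0, hf0, hm0⟩, hmin⟩ : ∃ d, (∃ f, ZER.Mt G f ∧ ZER.mis f = d) ∧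
      ∀ f, ZER.Mt G f → d ≤ ZER.mis f :=
    ⟨Nat.find hex, Nat.find_spec hex, fun f hf => Nat.find_min' hex ⟨f, hf, rfl⟩⟩
  have hdn : d₀ ≤ n := by
    rw [← hm0]
    exact Q14_mis f0
  obtain ⟨dF, hdF⟩ : ∃ dF : Fin (n + n), (dF : ℕ) = d₀ := ⟨⟨d₀, by omega⟩, rfl⟩
  have hAcc : ∀ d : Fin (n + n), AccR S a b (pair G A) (T1 (n + n) (pair G A) d) ↔ d₀ ≤ (d : ℕ) := by
    intro d
    constructor
    · intro h
      obtain ⟨f, hf, hm⟩ := (t1_char G A d).1 (accR_sound a b _ _ h)
      exact (hmin f hf).trans hm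
    · intro h
      exact h1 d ((t1_char G A d).2 ⟨f0, hf0, hm0.trans_le h⟩)
  have hLs : ∀ d : Fin (n + n), LsR S a b (pair G A) d ↔ d = dF := by
    intro d
    constructor
    · rintro ⟨h3, h4⟩
      have h5 := (hAcc d).1 h3
      by_contra h6
      have h7 : dF < d := by
        refine lt_of_le_of_ne ?_ (fun h8 => h6 h8.symm)
        rw [Fin.le_def, hdF]
        exact h5
      exact h4 dF h7 ((hAcc dF).2 hdF.ge)
    · rintro rfl
      refine ⟨(hAcc d).2 hdF.ge, fun d' hd' h3 => ?_⟩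
      have h4 := (hAcc d').1 h3
      rw [← hdF] at h4
      exact absurd hd' (not_lt.2 h4)
  have hDf : ∀ v : Fin n, DfR S a b (pair G A) (Fin.castAdd n v) ↔ (v : ℕ) < d₀ := by
    intro v
    constructor
    · intro h
      have h3 := h dF ((hAcc dF).2 hdF.ge)
      rw [Fin.lt_def, Fin.val_castAdd, hdF] at h3
      exact h3
    · intro h d hd
      rw [Fin.lt_def, Fin.val_castAdd]
      exact h.trans_le ((hAcc d).1 hd)
  have hGd : ∀ v : Fin n, GdR S a b (pair G A) (Fin.castAdd n v) ↔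
      ∃ f, ZER.Mt G f ∧ ZER.mis f = d₀ ∧ f v = v := by
    intro v
    constructor
    · rintro ⟨-, d, hd, hb⟩
      have h3 := (hLs d).1 hd
      rw [h3] at hb
      obtain ⟨f', h4, h5, h6⟩ := (t2_char G A dF v).1 (accR_sound a b _ _ hb)
      exact ⟨f', h4, le_antisymm (h5.trans_eq hdF) (hmin f' h4), h6⟩
    · rintro ⟨f', h4, h5, h6⟩
      exact ⟨Q14_lo v, dF, (hLs dF).2 rfl,
        h2 dF (Fin.castAdd n v) ((t2_char G A dF v).2 ⟨f', h4, by rw [h5, hdF], h6⟩)⟩
  have hUR : (fun w : Fin n => UrR S a b (pair G A) (Fin.castAdd n w)) =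
      ZER.NA G (fun v => ∃ f, ZER.Mt G f ∧ ZER.mis f = d₀ ∧ f v = v) := by
    funext w
    refine propext ⟨?_, ?_⟩
    · rintro ⟨-, h3, u, h4, h5⟩
      refine ⟨fun h6 => h3 ((hGd w).2 h6), ?_⟩
      revert h4 h5
      refine Fin.addCases (fun u' => ?_) (fun u' => ?_) u
      · intro h4 h5
        exact ⟨u', (hGd u').1 h4, (Q14_ll G A w u').1 h5⟩
      · intro h4 _
        exact absurd h4.1 (Q14_hi u')
    · rintro ⟨h3, u, h4, h5⟩
      exact ⟨Q14_lo w, fun h6 => h3 ((hGd w).1 h6), Fin.castAdd n u, (hGd u).2 h4,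
        (Q14_ll G A w u).2 h5⟩
  have hcard : Nat.card {v : Fin n // DfR S a b (pair G A) (Fin.castAdd n v)} = d₀ := by
    have h3 : (fun v : Fin n => DfR S a b (pair G A) (Fin.castAdd n v)) = fun v : Fin n => (v : ℕ) < d₀ := by
      funext v
      exact propext (hDf v)
    exact (congrArg (fun P : Fin n → Prop => Nat.card {v // P v}) h3).trans (Q14_card hdn)
  have hmain := ZER.ge_all G d₀ ⟨f0, hf0, hm0⟩ hmin
  rw [hcard]
  have e1 : Nat.card {w : Fin n // UrR S a b (pair G A) (Fin.castAdd n w)} =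
      Nat.card {v // ZER.NA G (fun v => ∃ f, ZER.Mt G f ∧ ZER.mis f = d₀ ∧ f v = v) v} :=
    congrArg (fun P : Fin n → Prop => Nat.card {v // P v}) hUR
  rw [e1, hUR]
  exact hmain

theorem df_sound (a b : ℕ) (G A : SimpleGraph (Fin n)) :
    ∃ f, ZER.Mt G f ∧ ZER.mis f ≤ Nat.card {v : Fin n // DfR S a b (pair G A) (Fin.castAdd n v)} := by
  classical
  by_cases h : ∃ m : ℕ, ∃ d : Fin (n + n), (d : ℕ) = m ∧ m ≤ n ∧ AccR S a b (pair G A) (T1 (n + n) (pair G A) d)
  · obtain ⟨d, hd, hdn, hacc⟩ := Nat.find_spec h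
    have hmin : ∀ d' : Fin (n + n), AccR S a b (pair G A) (T1 (n + n) (pair G A) d') → Nat.find h ≤ (d' : ℕ) := by
      intro d' hd'
      by_cases h1 : (d' : ℕ) ≤ n
      · exact Nat.find_min' h ⟨d', rfl, h1, hd'⟩
      · omega
    obtain ⟨f, hf, hm⟩ := (t1_char G A d).1 (accR_sound a b _ _ hacc)
    refine ⟨f, hf, hm.trans ?_⟩
    rw [hd]
    calc Nat.find h = Nat.card {v : Fin n // (v : ℕ) < Nat.find h} := (Q14_card hdn).symm
      _ ≤ Nat.card {v : Fin n // DfR S a b (pair G A) (Fin.castAdd n v)} := by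
        refine Nat.card_le_card_of_injective
          (fun v : {v : Fin n // (v : ℕ) < Nat.find h} =>
            (⟨v.1, fun d' hd' => by
              rw [Fin.lt_def, Fin.val_castAdd]
              exact v.2.trans_le (hmin d' hd')⟩ : {v : Fin n // DfR S a b (pair G A) (Fin.castAdd n v)})) ?_
        intro v w hvw
        exact Subtype.ext (congrArg (fun z => z.1) hvw)
  · refine ⟨id, ⟨fun x => rfl, fun x hx => absurd rfl hx⟩, (Q14_mis _).trans ?_⟩
    calc n = Nat.card (Fin n) := by rw [Nat.card_eq_fintype_card, Fintype.card_fin]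
      _ ≤ Nat.card {v : Fin n // DfR S a b (pair G A) (Fin.castAdd n v)} := by
        refine Nat.card_le_card_of_injective
          (fun v : Fin n => (⟨v, fun d' hd' => by
              rw [Fin.lt_def, Fin.val_castAdd]
              by_contra h1
              exact h ⟨_, d', rfl, by have := v.2; omega, hd'⟩⟩ :
                {v : Fin n // DfR S a b (pair G A) (Fin.castAdd n v)})) ?_
        intro v w hvw
        exact congrArg (fun z => z.1) hvw

end

theorem mt_sub {n : ℕ} (G : SimpleGraph (Fin n)) (f : Fin n → Fin n) (h : ZER.Mt G f) : ∃ M : G.Subgraph, M.IsMatching ∧ M.vertsᶜ.ncard = ZER.mis f := by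
  refine ⟨{ verts := {x | f x ≠ x}
            Adj := fun x y => f x = y ∧ f x ≠ x
            adj_sub := ?_
            edge_vert := ?_
            symm := ?_ }, ?_, ?_⟩
  · rintro x y ⟨h1, h2⟩
    rw [← h1]
    exact h.2 x h2
  · rintro x y ⟨h1, h2⟩
    exact h2
  · refine ⟨?_⟩
    rintro x y ⟨h1, h2⟩
    rw [← h1]
    refine ⟨h.1 x, ?_⟩
    rw [h.1 x]
    exact fun h3 => h2 h3.symm
  · intro v hv
    exact ⟨f v, ⟨rfl, hv⟩, fun w hw => hw.1.symm⟩
  · have h1 : ({x | f x ≠ x} : Set (Fin n))ᶜ = {x | f x = x} := by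
      ext x
      simp
    show (({x | f x ≠ x} : Set (Fin n))ᶜ).ncard = ZER.mis f
    rw [h1, ← Nat.card_coe_set_eq]
    rfl

end QRB
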