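import Pool.Agent.Lib.MP_0087d5_lcQB.Q3
import Pool.Agent.Lib.MP_0087d5_lcQB.Q13
import Pool.Agent.Lib.MP_0087d5_lcQB.Q14
import Pool.Agent.Lib.MP_0087d5_lcPR.SFin

/-!
# Leaf Q15 (medium-): assembly

Proof. `fail_count` (leaf Q13) with `t = c + 4` gives `a, b, n0, D`; `exists_SS D` (as in `PRS.search`, file PR/SFin) gives `S`. `D n G A := {v | DfR S a b (pair G A) (Fin.castAdd n v)}`, `U n G A := {w | UrR S a b (pair G A) (Fin.castAdd n w)}`, `C := 2 * b`. Circuits: `bridgeR (rel1_of_defP …)` as in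
`PRS.search`, with `def_DfR`, `def_UrR` (leaf Q3). Soundness: `df_sound`, `mt_sub` (leaf Q14). The count: `odd_eq` (PR/SFin) and `ur_main`: if the equation fails for `A` then some `T = T1 … d` or `T2 … (d, v)` (which do not depend on `A`: `t1_pair`, `t2_pair` with `A' = ⊥`, leaf Q10) has a
perfect matching and is not accepted; so the number of the bad `A` is at most the sum over the `N + N ^ 2` graphs, `N = n + n`, and `4 * N ^ 2 ≤ N ^ 4`, `n ^ c ≤ N ^ c`.
-/

set_option autoImplicit false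
set_option linter.all false

namespace QRB

open Finset Pool.Agent Pool.Agent.PMNC MTC LIN PRS

private theorem Q15_union {α ι : Type} [Finite α] [Fintype ι] (P : α → Prop) (Q : ι → α → Prop)
    (h : ∀ x, P x → ∃ i, Q i x) : Nat.card {x // P x} ≤ ∑ i, Nat.card {x // Q i x} := by
  classical
  have : Fintype α := Fintype.ofFinite α
  have e : ∀ R : α → Prop, Nat.card {x // R x} = (Finset.univ.filter R).card := fun R => by
    rw [Nat.card_eq_fintype_card, Fintype.card_subtype]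
  rw [e P]
  simp_rw [e]
  refine le_trans (Finset.card_le_card
    (t := Finset.univ.biUnion fun i => Finset.univ.filter (Q i)) ?_) Finset.card_biUnion_le
  intro x hx
  rw [Finset.mem_filter] at hx
  obtain ⟨i, hi⟩ := h x hx.2
  exact Finset.mem_biUnion.mpr ⟨i, Finset.mem_univ _, Finset.mem_filter.mpr ⟨Finset.mem_univ _, hi⟩⟩

private theorem Q15_arith {N c B Ω n : ℕ} (hN : 2 ≤ N) (hn : n ≤ N)
    (h : B * N ^ (c + 4) ≤ (N + N * N) * (2 * Ω)) : n ^ c * B ≤ Ω := by
  have h1 : (N + N * N) * 2 ≤ N ^ 4 := by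
    have h2 : N * 2 ≤ N * N := Nat.mul_le_mul_left N hN
    have h3 : 4 ≤ N * N := Nat.mul_le_mul hN hN
    have h4 : 4 * (N * N) ≤ N * N * (N * N) := Nat.mul_le_mul_right _ h3
    have h5 : N ^ 4 = N * N * (N * N) := by ring
    rw [h5]
    nlinarith
  have h6 : (B * N ^ c) * N ^ 4 ≤ Ω * N ^ 4 := by
    calc (B * N ^ c) * N ^ 4 = B * N ^ (c + 4) := by ring
      _ ≤ (N + N * N) * (2 * Ω) := h
      _ = (N + N * N) * 2 * Ω := by ring
      _ ≤ N ^ 4 * Ω := Nat.mul_le_mul_right _ h1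
      _ = Ω * N ^ 4 := Nat.mul_comm _ _
  have h7 : B * N ^ c ≤ Ω := Nat.le_of_mul_le_mul_right h6 (Nat.pow_pos (by omega))
  calc n ^ c * B ≤ N ^ c * B := Nat.mul_le_mul_right _ (Nat.pow_le_pow_left hn c)
    _ = B * N ^ c := Nat.mul_comm _ _
    _ ≤ Ω := h7

theorem main {C0 : ℕ} (hI : IsoMost C0) (c : ℕ) : ∃ (D U : ∀ n : ℕ, SimpleGraph (Fin n) → SimpleGraph (Fin n) → Set (Fin n)) (C n0 : ℕ),
    AUG.RelNC2 1 (fun n G A x => x 0 ∈ D n G A) ∧ AUG.RelNC2 1 (fun n G A x => x 0 ∈ U n G A) ∧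
    (∀ (n : ℕ) (G A : SimpleGraph (Fin n)), ∃ M : G.Subgraph, M.IsMatching ∧ M.vertsᶜ.ncard ≤ (D n G A).ncard) ∧
    ∀ n : ℕ, n0 ≤ n → ∀ G : SimpleGraph (Fin n),
      n ^ c * Nat.card {A : SimpleGraph (Fin n) // (∀ u v, A.Adj u v → (u : ℕ) < C * Nat.log 2 n) ∧
        ((⊤ : G.Subgraph).deleteVerts (U n G A)).coe.oddComponents.ncard ≠ (U n G A).ncard + (D n G A).ncard} ≤
      Nat.card {A : SimpleGraph (Fin n) // ∀ u v, A.Adj u v → (u : ℕ) < C * Nat.log 2 n} := by
  obtain ⟨a, b, n0, D0, hn0, hF⟩ := fail_count hI (c + 4)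
  obtain ⟨S, i1, i2, hS⟩ := exists_SS D0
  refine ⟨fun n G A => {v | DfR S a b (pair G A) (Fin.castAdd n v)},
    fun n G A => {w | UrR S a b (pair G A) (Fin.castAdd n w)}, 2 * b, n0, ?_, ?_, ?_, ?_⟩
  · exact bridgeR (rel1_of_defP (P := fun n G v => DfR S a b G v) (def_DfR a b))
  · exact bridgeR (rel1_of_defP (P := fun n G v => UrR S a b G v) (def_UrR a b))
  · intro n G A
    obtain ⟨f, hf, hle⟩ := df_sound (S := S) a b G A
    obtain ⟨M, hM, hMc⟩ := mt_sub G f hf
    refine ⟨M, hM, ?_⟩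
    rw [hMc, ← Nat.card_coe_set_eq]
    exact hle
  · intro n hn G
    let T : Fin (n + n) ⊕ (Fin (n + n) × Fin (n + n)) → SimpleGraph (Fin (n + n)) :=
      Sum.elim (fun d => T1 (n + n) (pair G ⊥) d) (fun dv => T2 (n + n) (pair G ⊥) (dv.1, dv.2))
    let Q : Fin (n + n) ⊕ (Fin (n + n) × Fin (n + n)) → SimpleGraph (Fin n) → Prop := fun i A =>
      Sup (2 * b * Nat.log 2 n) A ∧ HasPM (T i) ∧ ¬ AccR S a b (pair G A) (T i)
    have hQ : ∀ i, Nat.card {A // Q i A} * (n + n) ^ (c + 4) ≤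
        2 * Nat.card {A : SimpleGraph (Fin n) // Sup (2 * b * Nat.log 2 n) A} := by
      intro i
      by_cases hT : HasPM (T i)
      · have h1 := hF S hS.ge n hn G (T i) hT
        refine le_trans (Nat.mul_le_mul_right _ ?_) h1
        exact Nat.card_le_card_of_injective
          (fun A : {A // Q i A} => (⟨A.1, A.2.1, A.2.2.2⟩ :
            {A : SimpleGraph (Fin n) // Sup (2 * b * Nat.log 2 n) A ∧ ¬ AccR S a b (pair G A) (T i)}))
          (fun x y hxy => Subtype.ext (congrArg (fun z : {A : SimpleGraph (Fin n) //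
            Sup (2 * b * Nat.log 2 n) A ∧ ¬ AccR S a b (pair G A) (T i)} => z.1) hxy))
      · have h2 : IsEmpty {A // Q i A} := ⟨fun A => hT A.2.2.1⟩
        rw [Nat.card_of_isEmpty, Nat.zero_mul]
        exact Nat.zero_le _
    have hB : Nat.card {A : SimpleGraph (Fin n) // (∀ u v, A.Adj u v → (u : ℕ) < 2 * b * Nat.log 2 n) ∧
        ((⊤ : G.Subgraph).deleteVerts {w | UrR S a b (pair G A) (Fin.castAdd n w)}).coe.oddComponents.ncard ≠
          {w | UrR S a b (pair G A) (Fin.castAdd n w)}.ncard +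
            {v | DfR S a b (pair G A) (Fin.castAdd n v)}.ncard} ≤ ∑ i, Nat.card {A // Q i A} := by
      refine Q15_union _ _ fun A hA => ?_
      by_contra hcon
      push Not at hcon
      have hAll : ∀ i, HasPM (T i) → AccR S a b (pair G A) (T i) := by
        intro i hT
        by_contra hacc
        exact hcon i ⟨hA.1, hT, hacc⟩
      apply hA.2
      have h3 := ur_main (S := S) a b (by omega) G A
        (fun d hd => by
          rw [t1_pair G A ⊥] at hd ⊢
          exact hAll (Sum.inl d) hd)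
        (fun d v hd => by
          rw [t2_pair G A ⊥] at hd ⊢
          exact hAll (Sum.inr (d, v)) hd)
      rw [← odd_eq, ← Nat.card_coe_set_eq, ← Nat.card_coe_set_eq]
      exact h3
    refine Q15_arith (N := n + n) (by omega) (by omega) ?_
    calc _ ≤ (∑ i, Nat.card {A // Q i A}) * (n + n) ^ (c + 4) := Nat.mul_le_mul_right _ hB
      _ = ∑ i, Nat.card {A // Q i A} * (n + n) ^ (c + 4) := Finset.sum_mul _ _ _
      _ ≤ ∑ _i : Fin (n + n) ⊕ (Fin (n + n) × Fin (n + n)),
          2 * Nat.card {A : SimpleGraph (Fin n) // Sup (2 * b * Nat.log 2 n) A} :=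
        Finset.sum_le_sum fun i _ => hQ i
      _ = _ := by
        rw [Finset.sum_const, Finset.card_univ, Fintype.card_sum, Fintype.card_prod, Fintype.card_fin,
          smul_eq_mul]
        rfl

end QRB
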