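import Pool.Agent.Lib.MP_0087d5_lcQB.Defs
import Pool.Agent.Lib.MP_0087d5_lcQI.Iso

/-!
# The isolation theorem for the labels `eid`
-/

set_option autoImplicit false
set_option linter.all false

namespace QRB

open Finset Pool.Agent Pool.Agent.PMNC MTC LIN PRS

theorem ws_eq {V : Type} (e : V → V → ℕ) (K m : ℕ) (r : ℕ → ℕ) (i : ℕ) : WS e K m r i = QIS.WS e K m r i := by
  induction i with
  | zero => rfl
  | succ i ih =>
    funext u v
    show K * WS e K m r i u v + _ = K * QIS.WS e K m r i u v + _
    rw [ih]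

theorem lab_eid (N : ℕ) : QIS.Lab N (fun u v : Fin N => eid u v) := by
  have key : ∀ x y x' y' : ℕ, x < N → y < N → x' < N → y' < N → N * x + y = N * x' + y' → x = x' ∧ y = y' := by
    intro x y x' y' hx hy hx' hy' h
    have h1 : (N * x + y) / N = x := by
      rw [Nat.mul_add_div (by omega), Nat.div_eq_of_lt hy, add_zero]
    have h2 : (N * x' + y') / N = x' := by
      rw [Nat.mul_add_div (by omega), Nat.div_eq_of_lt hy', add_zero]
    have h3 : x = x' := by rw [← h1, h, h2]
    subst h3
    exact ⟨rfl, by omega⟩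
  refine ⟨fun a b => ?_, fun a b a' b' hab h => ?_, fun a b => ?_⟩
  · simp only [eid_eq, min_comm a b, max_comm a b]
  · simp only [eid_eq] at h
    obtain ⟨h1, h2⟩ := key _ _ _ _ (min a b).2 (max a b).2 (min a' b').2 (max a' b').2 h
    have h1 : min a b = min a' b' := Fin.ext h1
    have h2 : max a b = max a' b' := Fin.ext h2
    rcases le_total a b with h3 | h3
    · rw [min_eq_left h3] at h1
      rw [max_eq_right h3] at h2
      rcases le_total a' b' with h4 | h4
      · rw [min_eq_left h4] at h1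
        rw [max_eq_right h4] at h2
        exact Or.inl ⟨h1, h2⟩
      · rw [min_eq_right h4] at h1
        rw [max_eq_left h4] at h2
        exact Or.inr ⟨h1, h2⟩
    · rw [min_eq_right h3] at h1
      rw [max_eq_left h3] at h2
      rcases le_total a' b' with h4 | h4
      · rw [min_eq_left h4] at h1
        rw [max_eq_right h4] at h2
        exact Or.inr ⟨h2, h1⟩
      · rw [min_eq_right h4] at h1
        rw [max_eq_left h4] at h2
        exact Or.inl ⟨h2, h1⟩
  · simp only [eid_eq]
    have h1 := (min a b).2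
    have h2 := (max a b).2
    calc N * ((min a b : Fin N) : ℕ) + ((max a b : Fin N) : ℕ) < N * ((min a b : Fin N) : ℕ) + N := by omega
      _ = N * (((min a b : Fin N) : ℕ) + 1) := by ring
      _ ≤ N * N := Nat.mul_le_mul_left _ h1
      _ = N ^ 2 := by ring

/-- **the isolation theorem** -/
theorem isoMost : ∃ C, IsoMost C := by
  obtain ⟨C, h⟩ := QIS.iso_most
  refine ⟨C, fun N hN m hm K hK T hT => ?_⟩
  obtain ⟨B, h1, h2, h3⟩ := h (Fin N) N hN (by rw [Fintype.card_fin]) (fun u v => eid u v) (lab_eid N) m hm K hK T.Adj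
    (fun a b h => h.symm) (fun a => T.irrefl) (by
      obtain ⟨f, hf⟩ := hasPM_iff.1 hT
      exact ⟨f, hf.1, hf.2⟩)
  refine ⟨B, h1, h2, fun r hr => ?_⟩
  obtain ⟨f, hf, hf2⟩ := h3 r hr
  refine ⟨f, hf, fun f' hf' hne => ?_⟩
  have := hf2 f' hf' hne
  rw [ws_eq]
  exact this

end QRB
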