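import Pool.Agent.Lib.MP_0087d5_lcQB.Q1

/-!
# Leaf Q2 (medium): the test is definable

Proof. `defZ_num`: `DefZ.sum` over `j : Fin n` (file lc/ZRing; as in `defP_acc2`, `defZ_zr` of LI/NC2, MT/CB: the modulus `p` composed with the projection), `DefZ.ite`, `DefZ.pow (H := fun n => Fin n)` of the constant `2 = 1 + 1` (`DefZ.add`, `DefZ.one`)
with `nv_fin`, `def_ltMul`, `def_Sd`.
`defP_accR`: as `defZ_zM2`, `defP_acc2` (file LI/NC2): `defZ_powr hp hm (DefZ m of r ^ eid u v) (DefZ p of x)` gives `cnd (nv m = 0) 0 (x ^ rz m (r ^ eid u v))` modulo `p`; `eid u v` is `nv` of the pair `(u, v)` or `(v, u)` (`eid`: file where `eid_eq`, lc/ZNum; see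
how `defZ_zf` in MT handles `z ^ eid u v`); then `DefZ.prod` over `i : Fin n` with `DefZ.ite` (`def_ltMul 2`), `DefZ.mul` with `zB`, `DefZ.det`, `DefZ.ndvd`, `DefP.prS`, `DefP.nZero`, `DefP.ex`. The parameters `e : S n × S n` are `m = e.1`, `p = e.2`.
For `nv m = 0` both sides are false.
-/

set_option autoImplicit false
set_option linter.all false

namespace QRB

open Finset Pool.Agent Pool.Agent.PMNC MTC LIN PRS

section
variable {E S B : ℕ → Type} [Env E] [Env S] [Env B] [∀ n, Fintype (S n)]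

theorem defZ_num (a b : ℕ) {p : ∀ n : ℕ, E n → S n} (hp : Tm p) {i : ∀ n : ℕ, E n → Fin n} (hi : Tm (F := fun n => Fin n) i) :
    DefZ p (fun n G X e => num a b G (i n e)) := by
  have hp1 : Tm (fun n (y : E n × Fin n) => p n y.1) := hp.comp (Tm.fst Tm.id)
  have h1 : DefZ p (fun n G X e => ∑ j : Fin n, cnd ((¬ (j : ℕ) < a * Nat.log 2 n) ∧ (j : ℕ) < b * Nat.log 2 n ∧
      Sd G (i n e) j) ((1 + 1) ^ nv (S := fun n => Fin n) j) 0) := by
    refine DefZ.sum (F := fun n => Fin n) hp (DefZ.ite (E := fun n => E n × Fin n) ?_ ?_ (DefZ.zero hp1))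
    · exact DefP.and (DefP.not (def_ltMul (E := fun n => E n × Fin n) a (Tm.snd Tm.id)))
        (DefP.and (def_ltMul (E := fun n => E n × Fin n) b (Tm.snd Tm.id))
          (def_Sd (E := fun n => E n × Fin n) (hi.comp (Tm.fst Tm.id)) (Tm.snd Tm.id)))
    · exact DefZ.pow (E := fun n => E n × Fin n) (H := fun n => Fin n) hp1
        (DefZ.add hp1 (DefZ.one hp1) (DefZ.one hp1)) (Tm.snd Tm.id)
  refine h1.congr fun n G X e => ?_
  unfold num
  refine Finset.sum_congr rfl fun j _ => ?_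
  rw [nv_fin, one_add_one_eq_two]

/-- the entries of the matrix of the test; zero if `m = 0` -/
private theorem Q2_zR (a b : ℕ) {T : ∀ n : ℕ, SimpleGraph (Fin n) → B n → SimpleGraph (Fin n)}
    (hT : DefP (E := fun n => B n × (Fin n × Fin n)) (fun n G X y => (T n G y.1).Adj y.2.1 y.2.2))
    {c : ∀ n : ℕ, E n → B n} (hc : Tm c) {p m : ∀ n : ℕ, E n → S n} (hp : Tm p) (hm : Tm m)
    {u v : ∀ n : ℕ, E n → Fin n} (hu : Tm (F := fun n => Fin n) u) (hv : Tm (F := fun n => Fin n) v) :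
    DefZ p (fun n G X e => cnd (nv (m n e) = 0) 0 (zR a b (nv (m n e)) G (T n G (c n e)) (u n e) (v n e))) := by
  have hp1 : Tm (fun n (y : E n × Fin n) => p n y.1) := hp.comp (Tm.fst Tm.id)
  have hm1 : Tm (fun n (y : E n × Fin n) => m n y.1) := hm.comp (Tm.fst Tm.id)
  have hu1 : Tm (F := fun n => Fin n) (fun n (y : E n × Fin n) => u n y.1) := hu.comp (Tm.fst Tm.id)
  have hv1 : Tm (F := fun n => Fin n) (fun n (y : E n × Fin n) => v n y.1) := hv.comp (Tm.fst Tm.id)
  have hi1 : Tm (F := fun n => Fin n) (fun n (y : E n × Fin n) => y.2) := Tm.snd Tm.id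
  have hr := defZ_num (E := fun n => E n × Fin n) (S := S) 2 a hm1 hi1
  have hx := defZ_num (E := fun n => E n × Fin n) (S := S) a b hp1 hi1
  have hre : DefZ (E := fun n => E n × Fin n) (fun n y => m n y.1)
      (fun n G X y => num 2 a G y.2 ^ eid (u n y.1) (v n y.1)) := by
    refine (DefZ.ite (E := fun n => E n × Fin n) (DefP.lt hu1 hv1)
      (DefZ.pow (E := fun n => E n × Fin n) (H := fun n => Fin n × Fin n) hm1 hr
        (Tm.pair (F := fun n => Fin n) (H := fun n => Fin n) hu1 hv1))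
      (DefZ.pow (E := fun n => E n × Fin n) (H := fun n => Fin n × Fin n) hm1 hr
        (Tm.pair (F := fun n => Fin n) (H := fun n => Fin n) hv1 hu1))).congr fun n G X y => ?_
    unfold eid
    by_cases h : u n y.1 < v n y.1
    · rw [cnd_pos h, if_pos h]
    · rw [cnd_neg h, if_neg h]
  have hpw := defZ_powr (E := fun n => E n × Fin n) hp1 hm1 hre hx
  have hP : DefZ p (fun n G X e => ∏ i : Fin n, cnd ((i : ℕ) < 2 * Nat.log 2 n)
      (cnd (nv (m n e) = 0) 0 (num a b G i ^ rz (nv (m n e)) (num 2 a G i ^ eid (u n e) (v n e)))) 1) :=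
    DefZ.prod (F := fun n => Fin n) hp (DefZ.ite (E := fun n => E n × Fin n)
      (def_ltMul (E := fun n => E n × Fin n) 2 hi1) hpw (DefZ.one hp1))
  have hB : DefZ p (fun n G X e => zB (T n G (c n e)) (u n e) (v n e)) := by
    unfold zB
    exact DefZ.ite (DefP.comp (F := fun n => B n × (Fin n × Fin n)) (f := fun n x => (c n x, (u n x, v n x))) hT
      (Tm.pair hc (Tm.pair (F := fun n => Fin n) (H := fun n => Fin n) hu hv)))
      (DefZ.ite (DefP.lt hu hv) (DefZ.one hp) (DefZ.neg hp (DefZ.one hp))) (DefZ.zero hp)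
  refine (DefZ.ite (DefP.nZero hm) (DefZ.zero hp) (DefZ.mul hp hB hP)).congr fun n G X e => ?_
  by_cases h0 : nv (m n e) = 0
  · rw [cnd_pos h0, cnd_pos h0]
  · rw [cnd_neg h0, cnd_neg h0]
    unfold zR
    congr 1
    refine Finset.prod_congr rfl fun i _ => ?_
    rw [cnd_neg h0]

private theorem Q2_acc (a b : ℕ) {T : ∀ n : ℕ, SimpleGraph (Fin n) → B n → SimpleGraph (Fin n)}
    (hT : DefP (E := fun n => B n × (Fin n × Fin n)) (fun n G X y => (T n G y.1).Adj y.2.1 y.2.2)) :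
    DefP (E := fun n => B n × (S n × S n)) (fun n G X e => accR a b G (T n G e.1) e.2) := by
  have T1 : Tm (E := fun n => B n × (S n × S n)) (F := S) (fun n e => e.2.1) := Tm.fst (Tm.snd Tm.id)
  have T2 : Tm (E := fun n => B n × (S n × S n)) (F := S) (fun n e => e.2.2) := Tm.snd (Tm.snd Tm.id)
  have hc : ∀ {f : ∀ n : ℕ, (B n × (S n × S n)) → S n}, Tm f →
      Tm (fun n (y : (B n × (S n × S n)) × (Fin n × Fin n)) => f n y.1) :=
    fun hf => hf.comp (Tm.fst Tm.id)
  have hM := Q2_zR (E := fun n => (B n × (S n × S n)) × (Fin n × Fin n)) (S := S) a b hT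
    (c := fun n y => y.1.1) (Tm.fst (Tm.fst Tm.id)) (hc T2) (hc T1) (u := fun n y => y.2.1) (v := fun n y => y.2.2)
    (Tm.fst (Tm.snd Tm.id)) (Tm.snd (Tm.snd Tm.id))
  have hD := DefZ.det (E := fun n => B n × (S n × S n)) (T := fun n => Fin n)
    (M := fun n G X (e : B n × (S n × S n)) u v =>
      cnd (nv e.2.1 = 0) 0 (zR a b (nv e.2.1) G (T n G e.1) u v)) T2 hM
  refine DefP.congr (DefP.and (DefP.prS T2) (DefP.and (DefP.not (DefP.nZero T1)) (DefZ.ndvd T2 hD))) fun n G X e => ?_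
  by_cases h0 : nv e.2.1 = 0
  · exact ⟨fun h => absurd h0 h.2.1, fun h => absurd h0 h.2.1⟩
  · have hE : (fun u v : Fin n => cnd (nv e.2.1 = 0) 0 (zR a b (nv e.2.1) G (T n G e.1) u v)) =
        zR a b (nv e.2.1) G (T n G e.1) := by
      funext u v
      exact cnd_neg h0 _ _
    unfold accR nd zdet
    rw [hE]

theorem defP_accR (a b : ℕ) {T : ∀ n : ℕ, SimpleGraph (Fin n) → B n → SimpleGraph (Fin n)}
    (hT : DefP (E := fun n => B n × (Fin n × Fin n)) (fun n G X y => (T n G y.1).Adj y.2.1 y.2.2)) :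
    DefP (E := B) (fun n G X e => AccR S a b G (T n G e)) := by
  unfold AccR
  exact DefP.ex (F := fun n => S n × S n) (Q2_acc a b hT)

end

end QRB
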