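import Pool.Agent.Lib.MP_0087d5_lcQB.Q2

/-!
# Leaf Q3 (easy+): the outputs are definable

Proof. `defP_accR` (leaf Q2) with `def_T1`, `def_T2` (PR/XE), `def_lo`, `DefP.allFin`, `DefP.exFin`, `DefP.lt`, `DefP.imp`, `DefP.adj`, `DefP.comp` with `Tm.fst`, `Tm.snd`, `Tm.pair`; see PR/XG for the style.
-/

set_option autoImplicit false
set_option linter.all false

namespace QRB

open Finset Pool.Agent Pool.Agent.PMNC MTC LIN PRS

section
variable {S E : ℕ → Type} [Env S] [Env E] [∀ n, Fintype (S n)]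

private theorem Q3_acc1 (a b : ℕ) {d : ∀ n : ℕ, E n → Fin n} (hd : Tm (F := fun n => Fin n) d) :
    DefP (fun n G X x => AccR S a b G (T1 n G (d n x))) :=
  DefP.comp (F := fun n => Fin n) (defP_accR (S := S) (B := fun n => Fin n) a b (T := T1) def_T1) hd

private theorem Q3_acc2 (a b : ℕ) {d v : ∀ n : ℕ, E n → Fin n} (hd : Tm (F := fun n => Fin n) d)
    (hv : Tm (F := fun n => Fin n) v) : DefP (fun n G X x => AccR S a b G (T2 n G (d n x, v n x))) :=
  DefP.comp (F := fun n => Fin n × Fin n) (f := fun n x => (d n x, v n x))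
    (defP_accR (S := S) (B := fun n => Fin n × Fin n) a b (T := T2) def_T2)
    (Tm.pair (F := fun n => Fin n) (H := fun n => Fin n) hd hv)

private theorem Q3_ls (a b : ℕ) {d : ∀ n : ℕ, E n → Fin n} (hd : Tm (F := fun n => Fin n) d) :
    DefP (fun n G X x => LsR S a b G (d n x)) := by
  unfold LsR
  have d1 : Tm (E := fun n => E n × Fin n) (F := fun n => Fin n) (fun n y => d n y.1) :=
    Tm.comp (g := d) (F := E) hd (Tm.fst Tm.id)
  have e1 : Tm (E := fun n => E n × Fin n) (F := fun n => Fin n) (fun n y => y.2) := Tm.snd Tm.id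
  exact DefP.and (Q3_acc1 a b hd) (DefP.allFin (DefP.imp (DefP.lt e1 d1) (DefP.not (Q3_acc1 a b e1))))

private theorem Q3_gd (a b : ℕ) {v : ∀ n : ℕ, E n → Fin n} (hv : Tm (F := fun n => Fin n) v) :
    DefP (fun n G X x => GdR S a b G (v n x)) := by
  unfold GdR
  have v1 : Tm (E := fun n => E n × Fin n) (F := fun n => Fin n) (fun n y => v n y.1) :=
    Tm.comp (g := v) (F := E) hv (Tm.fst Tm.id)
  have e1 : Tm (E := fun n => E n × Fin n) (F := fun n => Fin n) (fun n y => y.2) := Tm.snd Tm.id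
  exact DefP.and (def_lo hv) (DefP.exFin (DefP.and (Q3_ls a b e1) (Q3_acc2 a b e1 v1)))

end

theorem def_DfR {S : ℕ → Type} [Env S] [∀ n, Fintype (S n)] (a b : ℕ) : DefP (E := fun n => Fin n) (fun n G X v => DfR S a b G v) := by
  unfold DfR
  have v1 : Tm (E := fun n => Fin n × Fin n) (F := fun n => Fin n) (fun n y => y.1) := Tm.fst Tm.id
  have d1 : Tm (E := fun n => Fin n × Fin n) (F := fun n => Fin n) (fun n y => y.2) := Tm.snd Tm.id
  exact DefP.allFin (DefP.imp (Q3_acc1 a b d1) (DefP.lt v1 d1))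

theorem def_UrR {S : ℕ → Type} [Env S] [∀ n, Fintype (S n)] (a b : ℕ) : DefP (E := fun n => Fin n) (fun n G X v => UrR S a b G v) := by
  unfold UrR
  have v : Tm (E := fun n => Fin n) (F := fun n => Fin n) (fun n y => y) := Tm.id
  have u1 : Tm (E := fun n => Fin n × Fin n) (F := fun n => Fin n) (fun n y => y.1) := Tm.fst Tm.id
  have v1 : Tm (E := fun n => Fin n × Fin n) (F := fun n => Fin n) (fun n y => y.2) := Tm.snd Tm.id
  exact DefP.and (def_lo v) (DefP.and (DefP.not (Q3_gd a b v)) (DefP.exFin (DefP.and (Q3_gd a b v1) (DefP.adj u1 v1))))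

end QRB
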