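import Pool.Agent.Lib.MP_0087d5_lcQB.Defs

/-!
# Leaf Q4 (easy): soundness of the test

Proof: as `acc2_sound` (file LI/NC2): `exists_pm_of_det` with the matrix `zR …`; it is skew-symmetric because `zB` is (`zB_skew`), and `eid u v = eid v u` (`eid_eq` in lc/ZNum, or a lemma there), so the products agree.
-/

set_option autoImplicit false
set_option linter.all false

namespace QRB

open Finset Pool.Agent Pool.Agent.PMNC MTC LIN PRS

private theorem Q4_eid {N : ℕ} (u v : Fin N) : eid u v = eid v u := by
  rw [eid_eq, eid_eq, min_comm, max_comm]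

theorem accR_sound {S : ℕ → Type} [Env S] [∀ n, Fintype (S n)] {N : ℕ} (a b : ℕ) (X T : SimpleGraph (Fin N)) (h : AccR S a b X T) : HasPM T := by
  classical
  obtain ⟨e, -, -, hd⟩ := h
  have hd := hd.2
  rw [zdet_eq (T := fun n => Fin n) inferInstance] at hd
  refine Pool.Agent.FRC.Uni.exists_pm_of_det (G := T) (Matrix.of (zR a b (nv e.1) X T)) ?_ ?_ ?_ ?_
  · intro v
    show zR a b (nv e.1) X T v v = 0
    unfold zR
    rw [zB_diag, zero_mul]
  · intro u v
    show zR a b (nv e.1) X T u v = - zR a b (nv e.1) X T v u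
    unfold zR
    rw [zB_skew, Q4_eid u v, neg_mul]
  · intro u v huv
    exact zB_adj T (left_ne_zero_of_mul huv)
  · intro h0
    apply hd
    rw [h0]
    exact dvd_zero _

end QRB
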