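import Pool.Agent.Lib.MP_0087d5_lcQB.Defs

/-!
# Leaf Q5 (medium-): the polynomial

`pM_ne`. Proof: let `φ : MvPolynomial (Fin R) (ZMod p) →+* Polynomial (ZMod p)` be `MvPolynomial.eval₂Hom Polynomial.C (fun i => Polynomial.X ^ K ^ (R - 1 - i))`. `φ.mapMatrix (pM p R T w) = Pool.Agent.FRC.Uni.wm (fun u v => ((zB T u v : ℤ) : ZMod p)) W` with
`W u v = ∑ i, K ^ (R - 1 - i) * w i u v`, and `RingHom.map_det`. The coefficient at the least weight of the determinant of `wm …` is not zero: `Pool.Agent.FRC.Uni.coeff_det_wm`; see the private lemmas `XC_supp`, `XC_mt`, `XC_coeff` in PR/XC for all the arguments.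
`pM_deg`. Proof: `Matrix.det_apply`, `MvPolynomial.totalDegree_finset_sum` (or `_le`), `totalDegree_smul_le` (the sign), `totalDegree_finset_prod`, `totalDegree_mul`, `totalDegree_X_pow`: every entry has degree at most `R * m`.
-/

set_option autoImplicit false
set_option linter.all false

namespace QRB

open Finset Pool.Agent Pool.Agent.PMNC MTC LIN PRS

private theorem Q5_supp {n P : ℕ} [Fact P.Prime] (G : SimpleGraph (Fin n)) (u v : Fin n) :
    ((zB G u v : ℤ) : ZMod P) ≠ 0 ↔ G.Adj u v := by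
  constructor
  · intro h
    apply zB_adj
    intro h0
    apply h
    rw [h0, Int.cast_zero]
  · intro h
    rcases zB_cases G h with h1 | h1
    · rw [h1, Int.cast_one]
      exact one_ne_zero
    · rw [h1, Int.cast_neg, Int.cast_one]
      exact neg_ne_zero.2 one_ne_zero

private theorem Q5_mt {n P : ℕ} [Fact P.Prime] (G : SimpleGraph (Fin n)) (m : Fin n → Fin n) :
    Pool.Agent.FRC.Uni.Mt (fun u v => ((zB G u v : ℤ) : ZMod P)) m ↔ MTC.IsPM G.Adj m := by
  constructor
  · intro h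
    exact ⟨h.invol, fun v => (Q5_supp G v (m v)).1 (h.supp v)⟩
  · intro h
    exact ⟨h.1, fun v => (G.ne_of_adj (h.2 v)).symm, fun v => (Q5_supp G v (m v)).2 (h.2 v)⟩

private theorem Q5_map {N : ℕ} (p R K : ℕ) [Fact p.Prime] (T : SimpleGraph (Fin N))
    (w : Fin R → Fin N → Fin N → ℕ) :
    (MvPolynomial.eval₂Hom (Polynomial.C : ZMod p →+* Polynomial (ZMod p))
      (fun i : Fin R => (Polynomial.X : Polynomial (ZMod p)) ^ K ^ (R - 1 - (i : ℕ)))).mapMatrix (pM p R T w) =
      Pool.Agent.FRC.Uni.wm (fun u v => ((zB T u v : ℤ) : ZMod p))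
        (fun u v => ∑ i : Fin R, K ^ (R - 1 - (i : ℕ)) * w i u v) := by
  refine Matrix.ext fun u v => ?_
  rw [RingHom.mapMatrix_apply, Matrix.map_apply]
  unfold pM Pool.Agent.FRC.Uni.wm
  rw [Matrix.of_apply, Matrix.of_apply, map_mul, MvPolynomial.eval₂Hom_C, map_prod, ← Finset.prod_pow_eq_pow_sum]
  congr 1
  refine Finset.prod_congr rfl fun i _ => ?_
  rw [map_pow, MvPolynomial.eval₂Hom_X', ← pow_mul]

theorem pM_ne {N : ℕ} (p R K : ℕ) [Fact p.Prime] (T : SimpleGraph (Fin N)) (w : Fin R → Fin N → Fin N → ℕ) (hw : ∀ i u v, w i u v = w i v u)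
    (hi : Iso T (fun u v => ∑ i : Fin R, K ^ (R - 1 - (i : ℕ)) * w i u v)) : (pM p R T w).det ≠ 0 := by
  intro h
  obtain ⟨f, hf, hmin⟩ := hi
  have h0 : ∀ x : Fin N, ((zB T x x : ℤ) : ZMod p) = 0 := fun x => by
    rw [zB_diag, Int.cast_zero]
  have hb : ∀ x y : Fin N, ((zB T x y : ℤ) : ZMod p) = - ((zB T y x : ℤ) : ZMod p) :=
    fun x y => by rw [zB_skew, Int.cast_neg]
  have h1 := Pool.Agent.FRC.Uni.det_wm_ne_zero (fun x y => ((zB T x y : ℤ) : ZMod p)) h0 hb
    (fun u v => ∑ i : Fin R, K ^ (R - 1 - (i : ℕ)) * w i u v)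
    (fun u v => Finset.sum_congr rfl fun i _ => by rw [hw]) ((Q5_mt T f).2 hf)
    (fun m' hm' hne => hmin m' ((Q5_mt T m').1 hm') hne)
  apply h1
  rw [← Q5_map, ← RingHom.map_det, h, map_zero]

theorem pM_deg {N : ℕ} (p R m : ℕ) [Fact p.Prime] (T : SimpleGraph (Fin N)) (w : Fin R → Fin N → Fin N → ℕ) (hw : ∀ i u v, w i u v ≤ m) :
    (pM p R T w).det.totalDegree ≤ N * (R * m) := by
  rw [Matrix.det_apply]
  refine MvPolynomial.totalDegree_finsetSum_le fun σ _ => ?_
  have h1 : (∏ i, pM p R T w (σ i) i).totalDegree ≤ N * (R * m) := by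
    refine (MvPolynomial.totalDegree_finsetProd _ _).trans ?_
    refine (Finset.sum_le_card_nsmul _ _ (R * m) fun i _ => ?_).trans ?_
    · unfold pM
      rw [Matrix.of_apply]
      refine (MvPolynomial.totalDegree_mul _ _).trans ?_
      rw [MvPolynomial.totalDegree_C, zero_add]
      refine (MvPolynomial.totalDegree_finsetProd _ _).trans ?_
      refine (Finset.sum_le_card_nsmul _ _ m fun j _ => ?_).trans ?_
      · rw [MvPolynomial.totalDegree_X_pow]
        exact hw _ _ _
      · rw [Finset.card_univ, Fintype.card_fin, smul_eq_mul]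
    · rw [Finset.card_univ, Fintype.card_fin, smul_eq_mul]
  rcases Int.units_eq_one_or (Equiv.Perm.sign σ) with e | e
  · rw [e, one_smul]
    exact h1
  · rw [e, Units.neg_smul, one_smul, MvPolynomial.totalDegree_neg]
    exact h1

end QRB
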