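import Pool.Agent.Lib.MP_0087d5_lcQB.Defs

/-!
# Leaf Q6 (easy+): the test evaluates the polynomial

Proof: `zdet_eq (T := fun n => Fin n) inferInstance` and `RingHom.map_det` on both sides (`Int.castRingHom (ZMod p)` and `MvPolynomial.eval _`), see `XC_det` in PR/XC; entries: `Int.cast_prod`, and
`∏ i : Fin N, cnd ((i : ℕ) < R) (f i) 1 = ∏ i : Fin R, f ⟨i, _⟩` for `R ≤ N` (`cnd_pos`, `cnd_neg`; `Finset.prod_filter`, `Fin.prod_univ_castLE`-like or `Finset.prod_bij`).
-/

set_option autoImplicit false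
set_option linter.all false

namespace QRB

open Finset Pool.Agent Pool.Agent.PMNC MTC LIN PRS

private theorem Q6_prod {N R : ℕ} (hR : R ≤ N) (f : Fin N → ℤ) :
    ∏ i : Fin N, cnd ((i : ℕ) < R) (f i) 1 = ∏ i : Fin R, f (Fin.castLE hR i) := by
  classical
  have h1 : ∀ i : Fin N, cnd ((i : ℕ) < R) (f i) 1 = if (i : ℕ) < R then f i else 1 := by
    intro i
    by_cases h : (i : ℕ) < R
    · rw [cnd_pos h, if_pos h]
    · rw [cnd_neg h, if_neg h]
  rw [Finset.prod_congr rfl fun i _ => h1 i, ← Finset.prod_filter]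
  symm
  refine Finset.prod_bij (fun i _ => Fin.castLE hR i) (fun i _ => ?_) (fun i _ j _ h => ?_) (fun j hj => ?_)
    fun i _ => rfl
  · exact Finset.mem_filter.2 ⟨Finset.mem_univ _, i.2⟩
  · exact Fin.castLE_injective hR h
  · exact ⟨⟨(j : ℕ), (Finset.mem_filter.1 hj).2⟩, Finset.mem_univ _, Fin.ext rfl⟩

theorem zR_eval {N : ℕ} (a b m p : ℕ) (X T : SimpleGraph (Fin N)) (hR : 2 * Nat.log 2 N ≤ N) :
    ((zdet (T := fun n => Fin n) (zR a b m X T) : ℤ) : ZMod p) =
      MvPolynomial.eval (fun i : Fin (2 * Nat.log 2 N) => ((num a b X (Fin.castLE hR i) : ℤ) : ZMod p))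
        (pM p (2 * Nat.log 2 N) T (fun i u v => rz m (num 2 a X (Fin.castLE hR i) ^ eid u v))).det := by
  rw [zdet_eq (T := fun n => Fin n) inferInstance]
  have h1 : ((Matrix.det (Matrix.of (zR a b m X T)) : ℤ) : ZMod p) =
      Matrix.det ((Int.castRingHom (ZMod p)).mapMatrix (Matrix.of (zR a b m X T))) :=
    RingHom.map_det (Int.castRingHom (ZMod p)) _
  have h2 : MvPolynomial.eval (fun i : Fin (2 * Nat.log 2 N) => ((num a b X (Fin.castLE hR i) : ℤ) : ZMod p))
        (pM p (2 * Nat.log 2 N) T (fun i u v => rz m (num 2 a X (Fin.castLE hR i) ^ eid u v))).det =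
      Matrix.det ((MvPolynomial.eval (fun i : Fin (2 * Nat.log 2 N) =>
        ((num a b X (Fin.castLE hR i) : ℤ) : ZMod p))).mapMatrix
        (pM p (2 * Nat.log 2 N) T (fun i u v => rz m (num 2 a X (Fin.castLE hR i) ^ eid u v)))) :=
    RingHom.map_det (MvPolynomial.eval (fun i : Fin (2 * Nat.log 2 N) => ((num a b X (Fin.castLE hR i) : ℤ) : ZMod p))) _
  rw [h1, h2]
  refine congrArg Matrix.det (Matrix.ext fun u v => ?_)
  rw [RingHom.mapMatrix_apply, RingHom.mapMatrix_apply, Matrix.map_apply, Matrix.map_apply]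
  change (Int.castRingHom (ZMod p)) (zR a b m X T u v) = MvPolynomial.eval _
    (MvPolynomial.C ((zB T u v : ℤ) : ZMod p) * ∏ i : Fin (2 * Nat.log 2 N), MvPolynomial.X i ^
      rz m (num 2 a X (Fin.castLE hR i) ^ eid u v))
  rw [map_mul, MvPolynomial.eval_C, map_prod]
  unfold zR
  rw [Q6_prod hR (fun i => num a b X i ^ rz m (num 2 a X i ^ eid u v)), map_mul, map_prod, eq_intCast]
  refine congrArg _ (Finset.prod_congr rfl fun i _ => ?_)
  rw [map_pow, map_pow, MvPolynomial.eval_X, eq_intCast]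

end QRB
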