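import Pool.Agent.Lib.MP_0087d5_lcQB.Defs

/-!
# Leaf Q9 (medium): the digits of the seed are independent

Proof. `code A i` = the two numbers below `2 ^ (c1 - c0)`, `2 ^ (c2 - c1)` with the binary digits `A.Adj i (c0 + t)`, `A.Adj i (c1 + t)` (`Nat.ofBits`, or the number `∑ t ∈ range (c1 - c0), if … then 2 ^ t else 0`; `Nat.testBit` lemmas).
The count. For `y` let `put A y` be the graph which agrees with `A` except on the pairs `i, j` with `i < R`, `c0 ≤ j < c2` (one of them `< R`, the other in `[c0, c2)`; these pairs are ordered by `R ≤ c0`), where the adjacency is given by the binary digits of `y`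
(`Nat.testBit`). Then `code (put A y) = y`, `put A (code A) = A`, `put (put A y) y' = put A y'`, and `Sup K` is preserved (`c2 ≤ K`, `R ≤ K`). So all the fibres of `code` on the seeds have the same number of elements
(`{A // Sup K A ∧ code A = y} ≃ {A // Sup K A ∧ code A = y'}`), the number of the seeds is this number times the number of all `y` (`Nat.card_congr` with `Σ y, {A // …}`; `Finset.card_eq_sum_card_fiberwise`), and the same for `Bad`.
-/

set_option autoImplicit false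
set_option linter.all false

namespace QRB

open Finset Pool.Agent Pool.Agent.PMNC MTC LIN PRS

/-- the digit `j` of the row `i` of `y` -/
private def Q9_bt {R k1 k2 : ℕ} (c0 c1 : ℕ) (y : Fin R → Fin (2 ^ k1) × Fin (2 ^ k2)) (i j : ℕ) : Prop :=
  ∃ hi : i < R, (∃ t : Fin k1, j = c0 + t ∧ (finFunctionFinEquiv.symm (y ⟨i, hi⟩).1 : Fin k1 → Fin 2) t = 1) ∨
    ∃ t : Fin k2, j = c1 + t ∧ (finFunctionFinEquiv.symm (y ⟨i, hi⟩).2 : Fin k2 → Fin 2) t = 1

private theorem Q9_bt_reg {R c0 c1 c2 : ℕ} (h1 : c0 ≤ c1) (h2 : c1 ≤ c2)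
    {y : Fin R → Fin (2 ^ (c1 - c0)) × Fin (2 ^ (c2 - c1))} {i j : ℕ} (h : Q9_bt c0 c1 y i j) :
    i < R ∧ c0 ≤ j ∧ j < c2 := by
  obtain ⟨hi, ⟨t, ht, -⟩ | ⟨t, ht, -⟩⟩ := h
  · have := t.2
    omega
  · have := t.2
    omega

private def Q9_put {n R c0 c1 c2 : ℕ} (h0 : R ≤ c0) (h1 : c0 ≤ c1) (h2 : c1 ≤ c2) (A : SimpleGraph (Fin n))
    (y : Fin R → Fin (2 ^ (c1 - c0)) × Fin (2 ^ (c2 - c1))) : SimpleGraph (Fin n) where
  Adj u v := (¬ (((u : ℕ) < R ∧ c0 ≤ (v : ℕ) ∧ (v : ℕ) < c2) ∨ ((v : ℕ) < R ∧ c0 ≤ (u : ℕ) ∧ (u : ℕ) < c2)) ∧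
    A.Adj u v) ∨ Q9_bt c0 c1 y u v ∨ Q9_bt c0 c1 y v u
  symm := ⟨by
    rintro u v (⟨h, h'⟩ | h | h)
    · exact Or.inl ⟨fun h3 => h h3.symm, h'.symm⟩
    · exact Or.inr (Or.inr h)
    · exact Or.inr (Or.inl h)⟩
  loopless := ⟨by
    rintro u (⟨-, h'⟩ | h | h)
    · exact A.loopless.irrefl u h'
    · have := Q9_bt_reg h1 h2 h
      omega
    · have := Q9_bt_reg h1 h2 h
      omega⟩

private theorem Q9_put_put {n R c0 c1 c2 : ℕ} (h0 : R ≤ c0) (h1 : c0 ≤ c1) (h2 : c1 ≤ c2)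
    (A : SimpleGraph (Fin n)) (y y' : Fin R → Fin (2 ^ (c1 - c0)) × Fin (2 ^ (c2 - c1))) :
    Q9_put h0 h1 h2 (Q9_put h0 h1 h2 A y) y' = Q9_put h0 h1 h2 A y' := by
  ext u v
  unfold Q9_put
  simp only
  have e1 : Q9_bt c0 c1 y u v → _ := Q9_bt_reg h1 h2
  have e2 : Q9_bt c0 c1 y v u → _ := Q9_bt_reg h1 h2
  tauto

open Classical in
private noncomputable def Q9_row {n : ℕ} (A : SimpleGraph (Fin n)) (u : Fin n) (c k : ℕ) (h : c + k ≤ n) :
    Fin (2 ^ k) :=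
  finFunctionFinEquiv (fun t : Fin k => if A.Adj u ⟨c + t, by have := t.2; omega⟩ then (1 : Fin 2) else 0)

private theorem Q9_row_bit {n : ℕ} (A : SimpleGraph (Fin n)) (u : Fin n) (c k : ℕ) (h : c + k ≤ n) (t : Fin k) :
    (finFunctionFinEquiv.symm (Q9_row A u c k h) : Fin k → Fin 2) t = 1 ↔
      A.Adj u ⟨c + t, by have := t.2; omega⟩ := by
  unfold Q9_row
  rw [Equiv.symm_apply_apply]
  split_ifs with h3
  · exact ⟨fun _ => h3, fun _ => rfl⟩
  · exact ⟨fun h4 => absurd h4 (by decide), fun h4 => absurd h4 h3⟩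

private theorem Q9_row_eq {n : ℕ} (A : SimpleGraph (Fin n)) (u : Fin n) (c k : ℕ) (h : c + k ≤ n) (z : Fin (2 ^ k))
    (hz : ∀ t : Fin k, A.Adj u ⟨c + t, by have := t.2; omega⟩ ↔ (finFunctionFinEquiv.symm z : Fin k → Fin 2) t = 1) :
    Q9_row A u c k h = z := by
  apply finFunctionFinEquiv.symm.injective
  funext t
  have h3 := (Q9_row_bit A u c k h t).trans (hz t)
  have h4 : ∀ a b : Fin 2, (a = 1 ↔ b = 1) → a = b := by decide
  exact h4 _ _ h3

private theorem Q9_dig {n : ℕ} (A : SimpleGraph (Fin n)) (u : Fin n) (c c' : ℕ) (hc : c ≤ c') (h : c + (c' - c) ≤ n) :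
    dig c c' A u = 2 ^ c * (Q9_row A u c (c' - c) h : ℕ) := by
  classical
  unfold dig Q9_row
  rw [finFunctionFinEquiv_apply, Finset.mul_sum]
  symm
  refine Finset.sum_of_injOn (fun t : Fin (c' - c) => (⟨c + t, by have := t.2; omega⟩ : Fin n)) ?_ ?_ ?_ ?_
  · intro t _ t' _ htt
    have h3 := congrArg Fin.val htt
    simp only at h3
    exact Fin.ext (by omega)
  · intro t _
    exact Finset.mem_coe.2 (Finset.mem_univ _)
  · intro j _ hj
    refine if_neg fun h3 => hj ?_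
    refine ⟨⟨(j : ℕ) - c, by omega⟩, Finset.mem_coe.2 (Finset.mem_univ _), Fin.ext ?_⟩
    simp only
    omega
  · intro t _
    have ht := t.2
    by_cases h3 : A.Adj u ⟨c + t, by omega⟩
    · rw [if_pos h3, if_pos ⟨Nat.le_add_right _ _, by simp only; omega, h3⟩]
      simp only [Fin.val_one, one_mul]
      rw [pow_add]
    · rw [if_neg h3, if_neg fun h4 => h3 h4.2.2]
      simp

private noncomputable def Q9_code {n R c0 c1 c2 : ℕ} (h0 : R ≤ c0) (h1 : c0 ≤ c1) (h2 : c1 ≤ c2) (hn : c2 ≤ n)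
    (A : SimpleGraph (Fin n)) (i : Fin R) : Fin (2 ^ (c1 - c0)) × Fin (2 ^ (c2 - c1)) :=
  (Q9_row A (Fin.castLE (by omega) i) c0 (c1 - c0) (by omega), Q9_row A (Fin.castLE (by omega) i) c1 (c2 - c1) (by omega))

private theorem Q9_code_put {n R c0 c1 c2 : ℕ} (h0 : R ≤ c0) (h1 : c0 ≤ c1) (h2 : c1 ≤ c2) (hn : c2 ≤ n)
    (A : SimpleGraph (Fin n)) (y : Fin R → Fin (2 ^ (c1 - c0)) × Fin (2 ^ (c2 - c1))) :
    Q9_code h0 h1 h2 hn (Q9_put h0 h1 h2 A y) = y := by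
  funext i
  have hi := i.2
  refine Prod.ext ?_ ?_
  · refine Q9_row_eq _ _ _ _ (by omega) _ fun t => ?_
    have ht := t.2
    constructor
    · rintro (⟨h, -⟩ | ⟨_, ⟨t', ht', hy⟩ | ⟨t', ht', hy⟩⟩ | h)
      · exact absurd (Or.inl ⟨hi, Nat.le_add_right _ _, by simp only; omega⟩) h
      · have h3 : t = t' := Fin.ext (by simp only at ht'; omega)
        rw [h3]
        exact hy
      · simp only at ht'
        omega
      · have := Q9_bt_reg h1 h2 h
        simp only at this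
        omega
    · intro h
      exact Or.inr (Or.inl ⟨hi, Or.inl ⟨t, rfl, h⟩⟩)
  · refine Q9_row_eq _ _ _ _ (by omega) _ fun t => ?_
    have ht := t.2
    constructor
    · rintro (⟨h, -⟩ | ⟨_, ⟨t', ht', hy⟩ | ⟨t', ht', hy⟩⟩ | h)
      · exact absurd (Or.inl ⟨hi, by simp only; omega, by simp only; omega⟩) h
      · have := t'.2
        simp only at ht'
        omega
      · have h3 : t = t' := Fin.ext (by simp only at ht'; omega)
        rw [h3]
        exact hy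
      · have := Q9_bt_reg h1 h2 h
        simp only at this
        omega
    · intro h
      exact Or.inr (Or.inl ⟨hi, Or.inr ⟨t, rfl, h⟩⟩)

private theorem Q9_bt_code {n R c0 c1 c2 : ℕ} (h0 : R ≤ c0) (h1 : c0 ≤ c1) (h2 : c1 ≤ c2) (hn : c2 ≤ n)
    (A : SimpleGraph (Fin n)) (u v : Fin n) : Q9_bt c0 c1 (Q9_code h0 h1 h2 hn A) u v ↔
      ((u : ℕ) < R ∧ c0 ≤ (v : ℕ) ∧ (v : ℕ) < c2) ∧ A.Adj u v := by
  constructor
  · intro h
    refine ⟨Q9_bt_reg h1 h2 h, ?_⟩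
    obtain ⟨hi, ⟨t, ht, hy⟩ | ⟨t, ht, hy⟩⟩ := h
    · have h3 := (Q9_row_bit A _ _ _ (by omega) t).1 hy
      have h4 : v = ⟨c0 + t, by have := t.2; omega⟩ := Fin.ext ht
      rw [h4]
      exact h3
    · have h3 := (Q9_row_bit A _ _ _ (by omega) t).1 hy
      have h4 : v = ⟨c1 + t, by have := t.2; omega⟩ := Fin.ext ht
      rw [h4]
      exact h3
  · rintro ⟨⟨hu, hv, hv'⟩, hA⟩
    refine ⟨hu, ?_⟩
    by_cases h3 : (v : ℕ) < c1
    · refine Or.inl ⟨⟨(v : ℕ) - c0, by omega⟩, by simp only; omega, ?_⟩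
      refine (Q9_row_bit A _ _ _ (by omega) _).2 ?_
      have h4 : v = ⟨c0 + ((v : ℕ) - c0), by omega⟩ := Fin.ext (by simp only; omega)
      rw [h4] at hA
      exact hA
    · refine Or.inr ⟨⟨(v : ℕ) - c1, by omega⟩, by simp only; omega, ?_⟩
      refine (Q9_row_bit A _ _ _ (by omega) _).2 ?_
      have h4 : v = ⟨c1 + ((v : ℕ) - c1), by omega⟩ := Fin.ext (by simp only; omega)
      rw [h4] at hA
      exact hA

private theorem Q9_put_code {n R c0 c1 c2 : ℕ} (h0 : R ≤ c0) (h1 : c0 ≤ c1) (h2 : c1 ≤ c2) (hn : c2 ≤ n)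
    (A : SimpleGraph (Fin n)) : Q9_put h0 h1 h2 A (Q9_code h0 h1 h2 hn A) = A := by
  ext u v
  have e1 := Q9_bt_code h0 h1 h2 hn A u v
  have e2 := Q9_bt_code h0 h1 h2 hn A v u
  have e3 : A.Adj u v ↔ A.Adj v u := A.adj_comm u v
  unfold Q9_put
  simp only
  rw [e1, e2]
  tauto

private theorem Q9_sup {n R c0 c1 c2 K : ℕ} (h0 : R ≤ c0) (h1 : c0 ≤ c1) (h2 : c1 ≤ c2) (h3 : c2 ≤ K)
    {A : SimpleGraph (Fin n)} (hA : Sup K A) (y : Fin R → Fin (2 ^ (c1 - c0)) × Fin (2 ^ (c2 - c1))) :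
    Sup K (Q9_put h0 h1 h2 A y) := by
  rintro u v (⟨-, h⟩ | h | h)
  · exact hA u v h
  · have := Q9_bt_reg h1 h2 h
    omega
  · have := Q9_bt_reg h1 h2 h
    omega

private theorem Q9_count {S Z S0 : Type} (code : S → Z) (e : S ≃ Z × S0) (he : ∀ A, (e A).1 = code A)
    (Bad : Set Z) : Nat.card {A : S // code A ∈ Bad} = Nat.card Bad * Nat.card S0 := by
  have e1 : {A : S // code A ∈ Bad} ≃ {p : Z × S0 // p.1 ∈ Bad} :=
    e.subtypeEquiv fun A => by rw [he]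
  rw [Nat.card_congr e1, Nat.card_congr (Equiv.prodSubtypeFstEquivSubtypeProd (p := fun z => z ∈ Bad)), Nat.card_prod]

theorem seed_count {n R c0 c1 c2 K : ℕ} (h0 : R ≤ c0) (h1 : c0 ≤ c1) (h2 : c1 ≤ c2) (h3 : c2 ≤ K) (h4 : K ≤ n) (hR : R ≤ n) :
    ∃ code : SimpleGraph (Fin n) → Fin R → Fin (2 ^ (c1 - c0)) × Fin (2 ^ (c2 - c1)),
      (∀ (A : SimpleGraph (Fin n)) (i : Fin R), dig c0 c1 A (Fin.castLE hR i) = 2 ^ c0 * ((code A i).1 : ℕ) ∧
        dig c1 c2 A (Fin.castLE hR i) = 2 ^ c1 * ((code A i).2 : ℕ)) ∧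
      ∀ Bad : Set (Fin R → Fin (2 ^ (c1 - c0)) × Fin (2 ^ (c2 - c1))),
        Nat.card {A : SimpleGraph (Fin n) // Sup K A ∧ code A ∈ Bad} * (2 ^ (c1 - c0) * 2 ^ (c2 - c1)) ^ R =
          Nat.card Bad * Nat.card {A : SimpleGraph (Fin n) // Sup K A} := by
  refine ⟨Q9_code h0 h1 h2 (h3.trans h4), fun A i => ⟨Q9_dig A _ c0 c1 h1 (by omega), Q9_dig A _ c1 c2 h2 (by omega)⟩, fun Bad => ?_⟩
  set y0 : Fin R → Fin (2 ^ (c1 - c0)) × Fin (2 ^ (c2 - c1)) :=
    fun _ => (⟨0, Nat.two_pow_pos _⟩, ⟨0, Nat.two_pow_pos _⟩) with hy0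
  let e : {A : SimpleGraph (Fin n) // Sup K A} ≃ (Fin R → Fin (2 ^ (c1 - c0)) × Fin (2 ^ (c2 - c1))) ×
      {A : {A : SimpleGraph (Fin n) // Sup K A} // Q9_code h0 h1 h2 (h3.trans h4) A.1 = y0} :=
    { toFun := fun A => (Q9_code h0 h1 h2 (h3.trans h4) A.1,
        ⟨⟨Q9_put h0 h1 h2 A.1 y0, Q9_sup h0 h1 h2 h3 A.2 y0⟩, Q9_code_put h0 h1 h2 (h3.trans h4) A.1 y0⟩)
      invFun := fun p => ⟨Q9_put h0 h1 h2 p.2.1.1 p.1, Q9_sup h0 h1 h2 h3 p.2.1.2 p.1⟩
      left_inv := fun A => by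
        apply Subtype.ext
        simp only
        rw [Q9_put_put, Q9_put_code]
      right_inv := fun p => by
        refine Prod.ext ?_ ?_
        · simp only
          rw [Q9_code_put]
        · apply Subtype.ext
          apply Subtype.ext
          simp only
          rw [Q9_put_put]
          exact (congrArg (Q9_put h0 h1 h2 p.2.1.1) p.2.2.symm).trans (Q9_put_code h0 h1 h2 (h3.trans h4) p.2.1.1) }
  have h5 := Q9_count (fun A : {A : SimpleGraph (Fin n) // Sup K A} => Q9_code h0 h1 h2 (h3.trans h4) A.1) e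
    (fun _ => rfl) Bad
  have h6 : Nat.card {A : SimpleGraph (Fin n) // Sup K A ∧ Q9_code h0 h1 h2 (h3.trans h4) A ∈ Bad} =
      Nat.card {A : {A : SimpleGraph (Fin n) // Sup K A} // Q9_code h0 h1 h2 (h3.trans h4) A.1 ∈ Bad} :=
    Nat.card_congr (Equiv.subtypeSubtypeEquivSubtypeInter (fun A : SimpleGraph (Fin n) => Sup K A)
      (fun A => Q9_code h0 h1 h2 (h3.trans h4) A ∈ Bad)).symm
  have h7 := Nat.card_congr e
  rw [Nat.card_prod] at h7
  have h8 : Nat.card (Fin R → Fin (2 ^ (c1 - c0)) × Fin (2 ^ (c2 - c1))) = (2 ^ (c1 - c0) * 2 ^ (c2 - c1)) ^ R := by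
    rw [Nat.card_eq_fintype_card, Fintype.card_fun, Fintype.card_prod, Fintype.card_fin, Fintype.card_fin,
      Fintype.card_fin]
  rw [h6, h5, h7, h8]
  ring

end QRB
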